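import Mathlib

/-! Orbits of lines under homogeneous maps. -/

set_option autoImplicit false

namespace Pool.Agent.Q15.DYN

open LinearAlgebra.Projectivization

variable {K V : Type*} [Field K] [AddCommGroup V] [Module K V]

/-- the forward orbit of the line of `x` is finite -/
def Pre (K : Type*) {V : Type*} [Field K] [AddCommGroup V] [Module K V] (F : V → V) (x : V) : Prop :=
  (Set.range fun j : ℕ => Submodule.span K {F^[j] x}).Finite

lemma iter_smul {F : V → V} {d : ℕ} (hF : ∀ (c : K) (x : V), F (c • x) = c ^ d • F x) (n : ℕ) :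
    ∀ (c : K) (x : V), F^[n] (c • x) = c ^ d ^ n • F^[n] x := by
  induction n with
  | zero => intro c x; simp
  | succ n ih =>
    intro c x
    rw [Function.iterate_succ_apply', Function.iterate_succ_apply', ih, hF, ← pow_mul, pow_succ]

lemma iter_ne {F : V → V} (hne : ∀ x : V, x ≠ 0 → F x ≠ 0) (n : ℕ) :
    ∀ x : V, x ≠ 0 → F^[n] x ≠ 0 := by
  induction n with
  | zero => intro x hx; simpa using hx
  | succ n ih =>
    intro x hx
    rw [Function.iterate_succ_apply']
    exact hne _ (ih x hx)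

lemma pre_of {F : V → V} {d : ℕ} (hF : ∀ (c : K) (x : V), F (c • x) = c ^ d • F x) {x : V}
    {m n : ℕ} (hmn : m < n) {c : K} (hc : c ≠ 0) (h : F^[n] x = c • F^[m] x) : Pre K F x := by
  have key : ∀ j : ℕ, ∃ i < n, Submodule.span K {F^[j] x} = Submodule.span K {F^[i] x} := by
    intro j
    induction j using Nat.strong_induction_on with
    | _ j ih =>
      by_cases hj : j < n
      · exact ⟨j, hj, rfl⟩
      · push Not at hj
        obtain ⟨i, hi, he⟩ := ih (j - n + m) (by omega)
        refine ⟨i, hi, ?_⟩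
        rw [← he]
        have h1 : F^[j] x = F^[j - n] (F^[n] x) := by
          rw [← Function.iterate_add_apply]
          congr 1
          omega
        rw [h1, h, iter_smul hF, ← Function.iterate_add_apply]
        exact Submodule.span_singleton_smul_eq (pow_ne_zero _ hc).isUnit _
  refine Set.Finite.subset ((Set.finite_Iio n).image fun i => Submodule.span K {F^[i] x}) ?_
  rintro _ ⟨j, rfl⟩
  obtain ⟨i, hi, he⟩ := key j
  exact ⟨i, hi, he.symm⟩

lemma of_pre {F : V → V} {x : V} (h : Pre K F x) :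
    ∃ m n : ℕ, m < n ∧ ∃ c : K, c ≠ 0 ∧ F^[n] x = c • F^[m] x := by
  have h1 : ¬ Function.Injective fun j : ℕ => Submodule.span K {F^[j] x} := by
    intro hi
    exact Set.infinite_range_of_injective hi h
  rw [Function.not_injective_iff] at h1
  obtain ⟨a, b, hab, hne⟩ := h1
  have key : ∀ a b : ℕ, a < b → Submodule.span K {F^[a] x} = Submodule.span K {F^[b] x} →
      ∃ m n : ℕ, m < n ∧ ∃ c : K, c ≠ 0 ∧ F^[n] x = c • F^[m] x := by
    intro a b hlt he
    rw [Submodule.span_singleton_eq_span_singleton] at he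
    obtain ⟨z, hz⟩ := he
    exact ⟨a, b, hlt, z, z.ne_zero, hz.symm⟩
  rcases lt_or_gt_of_ne hne with hlt | hlt
  · exact key a b hlt hab
  · exact key b a hlt hab.symm

lemma pre_iff {F : V → V} {d : ℕ} (hF : ∀ (c : K) (x : V), F (c • x) = c ^ d • F x) {x : V} :
    Pre K F x ↔ ∃ m n : ℕ, m < n ∧ ∃ c : K, c ≠ 0 ∧ F^[n] x = c • F^[m] x :=
  ⟨of_pre, fun ⟨_, _, hmn, _, hc, h⟩ => pre_of hF hmn hc h⟩

/-- a bound for the finite sets of representatives is a bound for the set of points -/
lemma card_points {P : V → Prop} {B : ℝ}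
    (h : ∀ X : Finset V, (∀ x ∈ X, x ≠ 0) → (∀ x ∈ X, ∀ y ∈ X, ∀ c : K, x = c • y → x = y) →
      (∀ x ∈ X, P x) → (X.card : ℝ) ≤ B) :
    {p : ℙ K V | P p.rep}.Finite ∧ ({p : ℙ K V | P p.rep}.ncard : ℝ) ≤ B := by
  classical
  have key : ∀ Y : Finset (ℙ K V), (↑Y ⊆ {p : ℙ K V | P p.rep}) → (Y.card : ℝ) ≤ B := by
    intro Y hY
    have hinj : Function.Injective (fun p : ℙ K V => p.rep) := by
      intro p q hpq
      rw [← p.mk_rep, ← q.mk_rep]
      congr 1
    rw [← Finset.card_image_of_injective Y hinj]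
    refine h _ ?_ ?_ ?_
    · intro x hx
      obtain ⟨p, _, rfl⟩ := Finset.mem_image.1 hx
      exact p.rep_nonzero
    · intro x hx y hy c hc
      obtain ⟨p, _, rfl⟩ := Finset.mem_image.1 hx
      obtain ⟨q, _, rfl⟩ := Finset.mem_image.1 hy
      have : p = q := by
        rw [← p.mk_rep, ← q.mk_rep, Projectivization.mk_eq_mk_iff']
        exact ⟨c, hc.symm⟩
      rw [this]
    · intro x hx
      obtain ⟨p, hp, rfl⟩ := Finset.mem_image.1 hx
      exact hY hp
  have hfin : {p : ℙ K V | P p.rep}.Finite := by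
    by_contra hinf
    obtain ⟨Y, hYs, hYc⟩ := Set.Infinite.exists_subset_card_eq hinf (⌈B⌉₊ + 1)
    have h1 := key Y hYs
    rw [hYc] at h1
    have h2 := Nat.le_ceil B
    push_cast at h1
    linarith
  refine ⟨hfin, ?_⟩
  rw [Set.ncard_eq_toFinset_card _ hfin]
  exact key _ (by simp)

end Pool.Agent.Q15.DYN
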