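import Mathlib

/-! The number of the places of an extension above a place. -/

set_option autoImplicit false

namespace Pool.Agent.Q15.DYN

/-- pairwise inequivalent extensions of a nonarchimedean absolute value are at most as many as the
degree -/
lemma card_ext {K L : Type*} [Field K] [Field L] [Algebra K L] [FiniteDimensional K L]
    (t : AbsoluteValue K ℝ) (Y : Finset (AbsoluteValue L ℝ))
    (hna : ∀ v ∈ Y, IsNonarchimedean v) (hnt : ∀ v ∈ Y, v.IsNontrivial)
    (hY : ∀ v ∈ Y, ∀ w ∈ Y, v.IsEquiv w → v = w)
    (ht : ∀ v ∈ Y, (v.comp (algebraMap K L).injective).IsEquiv t) :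
    Y.card ≤ Module.finrank K L := by
  classical
  have hna' : ∀ v ∈ Y, ∀ x y : L, v (x + y) ≤ max (v x) (v y) := fun v hv => hna v hv
  have hex := AbsoluteValue.exists_one_lt_lt_one_pi_of_not_isEquiv
    (v := fun i : {v // v ∈ Y} => (i : AbsoluteValue L ℝ)) (fun i => hnt i i.2) (by
      intro i j hij h
      exact hij (Subtype.ext (hY i i.2 j j.2 h)))
  choose a ha1 ha2 using hex
  -- `b i` is a unit for `v i` and small for the others
  set b : {v // v ∈ Y} → L := fun i => a i / (1 + a i) with hb
  have hstrict : ∀ v ∈ Y, ∀ x y : L, v x < v y → v (x + y) = v y := by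
    intro v hv x y hxy
    apply le_antisymm
    · exact (hna' v hv x y).trans (max_le hxy.le le_rfl)
    · by_contra hlt
      push Not at hlt
      have h1 := hna' v hv (x + y) (-x)
      rw [v.map_neg, add_neg_cancel_comm] at h1
      have h2 : max (v (x + y)) (v x) < v y := max_lt hlt hxy
      linarith
  have hb1 : ∀ i : {v // v ∈ Y}, (i : AbsoluteValue L ℝ) (b i) = 1 := by
    intro i
    have h1 : (i : AbsoluteValue L ℝ) (1 + a i) = (i : AbsoluteValue L ℝ) (a i) := by
      apply hstrict i i.2
      rw [map_one]
      exact ha1 i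
    rw [hb]
    simp only
    rw [map_div₀, h1, div_self]
    linarith [ha1 i]
  have hb2 : ∀ i j : {v // v ∈ Y}, j ≠ i → (j : AbsoluteValue L ℝ) (b i) < 1 := by
    intro i j hji
    have h1 : (j : AbsoluteValue L ℝ) (1 + a i) = 1 := by
      have h2 := hstrict j j.2 (a i) 1 (by rw [map_one]; exact ha2 i j hji)
      rw [add_comm, h2, map_one]
    rw [hb]
    simp only
    rw [map_div₀, h1, div_one]
    exact ha2 i j hji
  have hlin : LinearIndependent K b := by
    rw [Fintype.linearIndependent_iff]
    intro c hc
    by_contra hcon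
    push Not at hcon
    obtain ⟨i0, hi0⟩ := hcon
    obtain ⟨j, _, hj⟩ := Finset.exists_max_image Finset.univ (fun i => t (c i)) ⟨i0, Finset.mem_univ _⟩
    have hj0 : 0 < t (c j) := lt_of_lt_of_le (t.pos hi0) (hj i0 (Finset.mem_univ _))
    have hcj : c j ≠ 0 := by
      intro h
      rw [h, map_zero] at hj0
      exact lt_irrefl _ hj0
    -- the values at `v j`
    have hle : ∀ i, (j : AbsoluteValue L ℝ) (algebraMap K L (c i)) ≤
        (j : AbsoluteValue L ℝ) (algebraMap K L (c j)) := by
      intro i
      have h1 := ht j j.2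
      have h2 := (h1 (c i) (c j)).2 (hj i (Finset.mem_univ _))
      exact h2
    have hpos : 0 < (j : AbsoluteValue L ℝ) (algebraMap K L (c j)) :=
      (j : AbsoluteValue L ℝ).pos ((map_ne_zero _).2 hcj)
    have hsum : (j : AbsoluteValue L ℝ) (∑ i ∈ Finset.univ.erase j, c i • b i) <
        (j : AbsoluteValue L ℝ) (c j • b j) := by
      have h1 : (j : AbsoluteValue L ℝ) (c j • b j) =
          (j : AbsoluteValue L ℝ) (algebraMap K L (c j)) := by
        rw [Algebra.smul_def, map_mul, hb1, mul_one]
      rw [h1]
      have h2 : ∀ s : Finset {v // v ∈ Y}, (∀ i ∈ s, i ≠ j) →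
          (j : AbsoluteValue L ℝ) (∑ i ∈ s, c i • b i) <
            (j : AbsoluteValue L ℝ) (algebraMap K L (c j)) := by
        intro s
        induction s using Finset.induction_on with
        | empty => intro _; simpa using hpos
        | insert i s his ih =>
          intro hs
          rw [Finset.sum_insert his]
          refine lt_of_le_of_lt (hna' j j.2 _ _) (max_lt ?_ ?_)
          · rw [Algebra.smul_def, map_mul]
            have h3 := hb2 i j (fun h => hs i (Finset.mem_insert_self _ _) h.symm)
            have h4 := hle i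
            have h5 : 0 ≤ (j : AbsoluteValue L ℝ) (b i) := (j : AbsoluteValue L ℝ).nonneg _
            calc (j : AbsoluteValue L ℝ) (algebraMap K L (c i)) * (j : AbsoluteValue L ℝ) (b i)
                ≤ (j : AbsoluteValue L ℝ) (algebraMap K L (c j)) * (j : AbsoluteValue L ℝ) (b i) :=
                  mul_le_mul_of_nonneg_right h4 h5
              _ < (j : AbsoluteValue L ℝ) (algebraMap K L (c j)) * 1 :=
                  mul_lt_mul_of_pos_left h3 hpos
              _ = _ := mul_one _
          · exact ih fun i' hi' => hs i' (Finset.mem_insert_of_mem hi')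
      exact h2 _ fun i hi => Finset.ne_of_mem_erase hi
    have h3 := hstrict j j.2 _ _ hsum
    rw [Finset.sum_erase_add _ _ (Finset.mem_univ j), hc, map_zero] at h3
    rw [Algebra.smul_def, map_mul, hb1, mul_one] at h3
    linarith
  have h := hlin.fintype_card_le_finrank
  rwa [Fintype.card_coe] at h

/-- representatives of the classes of the bad absolute values -/
lemma exists_reps {K L : Type*} [Field K] [Field L] [Algebra K L] [FiniteDimensional K L]
    (Bad : AbsoluteValue L ℝ → Prop) (hna : ∀ v, Bad v → IsNonarchimedean v)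
    (hnt : ∀ v, Bad v → v.IsNontrivial) (S : Finset (AbsoluteValue K ℝ))
    (hS : ∀ v, Bad v → ∃ t ∈ S, (v.comp (algebraMap K L).injective).IsEquiv t) :
    ∃ T : Finset (AbsoluteValue L ℝ), T.card ≤ Module.finrank K L * S.card ∧
      ∀ v, Bad v → ∃ w ∈ T, v.IsEquiv w := by
  classical
  have key : ∀ t : AbsoluteValue K ℝ, ∃ Y : Finset (AbsoluteValue L ℝ),
      Y.card ≤ Module.finrank K L ∧ ∀ v, Bad v → (v.comp (algebraMap K L).injective).IsEquiv t →
        ∃ w ∈ Y, v.IsEquiv w := by
    intro t
    let P : ℕ → Prop := fun n => ∃ Y : Finset (AbsoluteValue L ℝ), Y.card = n ∧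
      (∀ v ∈ Y, Bad v) ∧ (∀ v ∈ Y, ∀ w ∈ Y, v.IsEquiv w → v = w) ∧
      ∀ v ∈ Y, (v.comp (algebraMap K L).injective).IsEquiv t
    have hb : ∀ n, P n → n ≤ Module.finrank K L := by
      rintro n ⟨Y, rfl, h1, h2, h3⟩
      exact card_ext t Y (fun v hv => hna v (h1 v hv)) (fun v hv => hnt v (h1 v hv)) h2 h3
    have h0 : P 0 := ⟨∅, rfl, by simp, by simp, by simp⟩
    have hmax := Nat.findGreatest_spec (P := P) (Nat.zero_le (Module.finrank K L)) h0
    obtain ⟨Y, hYc, h1, h2, h3⟩ := hmax
    refine ⟨Y, ?_, ?_⟩
    · rw [hYc]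
      exact Nat.findGreatest_le _
    · intro v hv hvt
      by_contra hcon
      push Not at hcon
      have hvY : v ∉ Y := fun h => hcon v h (AbsoluteValue.IsEquiv.refl v)
      have h4 : P (Y.card + 1) := by
        refine ⟨insert v Y, Finset.card_insert_of_notMem hvY, ?_, ?_, ?_⟩
        · intro w hw
          rcases Finset.mem_insert.1 hw with rfl | hw
          · exact hv
          · exact h1 w hw
        · intro w hw w' hw' he
          rcases Finset.mem_insert.1 hw with hw1 | hw1
          · rcases Finset.mem_insert.1 hw' with hw2 | hw2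
            · rw [hw1, hw2]
            · rw [hw1] at he
              exact absurd he (hcon w' hw2)
          · rcases Finset.mem_insert.1 hw' with hw2 | hw2
            · rw [hw2] at he
              exact absurd he.symm (hcon w hw1)
            · exact h2 w hw1 w' hw2 he
        · intro w hw
          rcases Finset.mem_insert.1 hw with rfl | hw
          · exact hvt
          · exact h3 w hw
      have h5 := hb _ h4
      have h6 := Nat.le_findGreatest (P := P) h5 h4
      omega
  choose Y hY1 hY2 using key
  refine ⟨S.biUnion Y, ?_, ?_⟩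
  · refine Finset.card_biUnion_le.trans ?_
    refine (Finset.sum_le_card_nsmul S _ (Module.finrank K L) fun t _ => hY1 t).trans ?_
    rw [smul_eq_mul, mul_comm]
  · intro v hv
    obtain ⟨t, ht, he⟩ := hS v hv
    obtain ⟨w, hw, hvw⟩ := hY2 t v hv he
    exact ⟨w, Finset.mem_biUnion.2 ⟨t, ht, hw⟩, hvw⟩

/-- absolute values which are trivial on a subfield are nonarchimedean -/
lemma nonarch_of_trivial {k L : Type*} [Field k] [Field L] [Algebra k L] (v : AbsoluteValue L ℝ)
    (h : ∀ c : k, c ≠ 0 → v (algebraMap k L c) = 1) : IsNonarchimedean v := by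
  have hn : ∀ n : ℕ, v n ≤ 1 := by
    intro n
    by_cases h0 : (n : k) = 0
    · have h1 : (n : L) = 0 := by
        rw [← map_natCast (algebraMap k L), h0, map_zero]
      rw [h1, map_zero]
      exact zero_le_one
    · have h1 := h (n : k) h0
      rw [map_natCast] at h1
      exact h1.le
  let _ : NormedField L := v.toNormedField
  have : IsUltrametricDist L :=
    IsUltrametricDist.isUltrametricDist_of_forall_norm_natCast_le_one hn
  intro x y
  exact IsUltrametricDist.norm_add_le_max x y

end Pool.Agent.Q15.DYN
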