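import Pool.Agent.Y706.G16

set_option autoImplicit false

/-! The specialisation theorem for families of endomorphisms of projective space at integral
parameters (after `Pool.Agent.Y706.G16`, which treats rational parameters). -/

namespace Pool.Agent.Q15.DYN

open MvPolynomial Pool.Agent.H936R2 Pool.Agent.H927R2.RD H294UB Pool.Agent.W275.UB
  Pool.Agent.W193.UB Pool.Agent.W554.UB NumberField Filter Topology Pool.Agent.Y706

section

variable {k : Type} [Field k] [NumberField k] {m : ℕ}

/-- the field of fractions of the polynomials with integral coefficients in the field of rational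
functions -/
lemma exists_T (k : Type) [Field k] [NumberField k] (m : ℕ) :
    Nonempty (KK k (Fin m) →+* FractionRing (MvPolynomial (Fin m) k)) := by
  have h1 : Function.Injective ((algebraMap (MvPolynomial (Fin m) k)
      (FractionRing (MvPolynomial (Fin m) k))).comp
      (MvPolynomial.map (algebraMap (𝓞 k) k) : MvPolynomial (Fin m) (𝓞 k) →+* _)) :=
    (IsFractionRing.injective (MvPolynomial (Fin m) k) _).comp
      (MvPolynomial.map_injective _ (FaithfulSMul.algebraMap_injective (𝓞 k) k))
  exact ⟨IsFractionRing.lift h1⟩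

theorem mainInt (k : Type) [Field k] [NumberField k] (J : Type) [Fintype J]
    (ω : Module.Basis J ℤ (𝓞 k)) (N d : ℕ) (hd : 2 ≤ d) (m : ℕ)
    (F : Fin (N + 1) → MvPolynomial (Fin (N + 1)) (MvPolynomial (Fin m) (𝓞 k)))
    (hF : ∀ i, (F i).IsHomogeneous d)
    (hmor : MorP fun i => (F i).map (algebraMap (MvPolynomial (Fin m) (𝓞 k)) (KK k (Fin m))))
    (B : ℕ) :
    (preP (fun i => (F i).map (algebraMap (MvPolynomial (Fin m) (𝓞 k)) (KK k (Fin m)))) B).Finite ∧
    Tendsto (fun H : ℕ =>
      (({v | v ∈ {v : Fin m → 𝓞 k | ∀ l j, |ω.repr (v l) j| ≤ (H : ℤ)} ∧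
        (MorP (fun i => (F i).map ((algebraMap (𝓞 k) k).comp (MvPolynomial.eval v))) ∧
          (preP (fun i => (F i).map ((algebraMap (𝓞 k) k).comp (MvPolynomial.eval v))) B).encard =
          (preP (fun i => (F i).map (algebraMap (MvPolynomial (Fin m) (𝓞 k))
            (KK k (Fin m)))) B).encard)} :
          Set (Fin m → 𝓞 k)).ncard : ℝ) /
      (({v : Fin m → 𝓞 k | ∀ l j, |ω.repr (v l) j| ≤ (H : ℤ)}).ncard : ℝ))
      atTop (𝓝 1) := by
  classical
  have hcz : CharZero (KK k (Fin m)) :=
    charZero_of_injective_algebraMap (R := MvPolynomial (Fin m) (𝓞 k))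
      (IsFractionRing.injective (MvPolynomial (Fin m) (𝓞 k)) (KK k (Fin m)))
  set R := MvPolynomial (Fin m) (𝓞 k) with hR
  set v : Idx (N + 1) d → R := fun i => coeff (expo i.2) (F i.1) with hv
  have hFv : F = sy v := by
    funext i
    exact (form_coeff (hF i)).symm
  have hmap : ∀ {S : Type} [CommRing S] (φ : R →+* S),
      (fun i => (F i).map φ) = sy fun i => φ (v i) := by
    intro S _ φ
    rw [hFv]
    exact Pool.Agent.W193.UB.map_sy φ v
  rw [hmap] at hmor ⊢
  set vK : Idx (N + 1) d → KK k (Fin m) := fun i => algebraMap R (KK k (Fin m)) (v i) with hvK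
  -- the generic member
  obtain ⟨s, c, hc, hMC⟩ := exists_monC (algebraMap (KK k (Fin m))
    (AlgebraicClosure (KK k (Fin m)))) vK (by
      intro x hx
      apply hmor x
      intro i
      have h1 := hx i
      rw [← Pool.Agent.W193.UB.map_sy, eval_map] at h1
      rw [aeval_def]
      exact h1)
  have hc0 : c ≠ 0 := by
    rintro rfl
    exact hc (map_zero _)
  have hM : MonIn s (sy vK) := hMC.monIn (isUnit_iff_ne_zero.2 hc0)
  obtain ⟨T⟩ := exists_T k m
  obtain ⟨C, hC⟩ := np_sub T (np_RF (k := k) m) N d s vK hd hM B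
  have hfew := hC (AlgebraicClosure (KK k (Fin m)))
  have hle := (few_iff hM B C).1 hfew
  have hfin : (preP (sy vK) B).Finite :=
    Set.encard_lt_top_iff.1 (hle.trans_lt (ENat.natCast_lt_top C))
  obtain ⟨n, hn⟩ : ∃ n : ℕ, (preP (sy vK) B).encard = (n : ℕ∞) :=
    ⟨_, hfin.encard_eq_coe_toFinset_card⟩
  refine ⟨hfin, ?_⟩
  have hup : FewB (AlgebraicClosure (KK k (Fin m))) B n vK := (few_iff hM B n).2 hn.le
  obtain ⟨s', c', hc', hMC'⟩ := exists_monC
    ((algebraMap (KK k (Fin m)) (AlgebraicClosure (KK k (Fin m)))).comp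
      (algebraMap R (KK k (Fin m)))) v (by
      intro x hx
      exact no_zero _ (monIn_map (algebraMap (KK k (Fin m))
        (AlgebraicClosure (KK k (Fin m)))) hM) x hx)
  have hc'0 : c' ≠ 0 := by
    rintro rfl
    exact hc' (map_zero _)
  have h3 := transferB ω (AlgebraicClosure k) hd v c' hc'0 hMC' hup
  have h4 : D0 {w : Fin m × J → ℤ | 1 ≤ n ∧
      FewB (AlgebraicClosure k) B (n - 1) (cf ω v w)} := by
    by_cases hn1 : 1 ≤ n
    · have h5 : ¬ FewB (AlgebraicClosure (KK k (Fin m))) B (n - 1) vK := by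
        intro h6
        have h7 := (few_iff hM B (n - 1)).1 h6
        rw [hn] at h7
        have h8 : n ≤ n - 1 := by exact_mod_cast h7
        omega
      have h6 := lowerB ω (AlgebraicClosure k) v h5
      intro ε hε
      exact (h6 ε hε).mono fun w hw => hw.2
    · intro ε hε
      exact (D0.empty ε hε).mono fun w hw => absurd hw.1 hn1
  refine Pool.Agent.W275.ND.ratioV ω (ι := Fin m) _ ?_
  intro ε hε
  refine ((h3.union h4) ε hε).mono ?_
  intro w hw
  by_contra hcon
  rw [Set.mem_union, not_or] at hcon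
  obtain ⟨hcon1, hcon2⟩ := hcon
  apply hw
  have hcon1' : eval (vec ω w) c' ≠ 0 ∧ FewB (AlgebraicClosure k) B n (cf ω v w) := by
    by_contra h5
    exact hcon1 h5
  obtain ⟨g1, g3⟩ := hcon1'
  have g4 : ¬ (1 ≤ n ∧ FewB (AlgebraicClosure k) B (n - 1) (cf ω v w)) := hcon2
  have g2 : MonIn s' (sy (cf ω v w)) := by
    refine ((hMC'.map (eval (vec ω w))).map (algebraMap (𝓞 k) k)).monIn ?_
    rw [isUnit_iff_ne_zero, Ne, FaithfulSMul.algebraMap_eq_zero_iff]
    exact g1
  have hmem : (fun i => (F i).map ((algebraMap (𝓞 k) k).comp (MvPolynomial.eval (vec ω w)))) =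
      sy (cf ω v w) := by
    rw [hmap]
    rfl
  refine ⟨?_, ?_⟩
  · show MorP (fun i => (F i).map ((algebraMap (𝓞 k) k).comp (MvPolynomial.eval (vec ω w))))
    rw [hmem]
    intro x hx
    have g5 : MonIn s' (sy fun i => algebraMap k (AlgebraicClosure k) (cf ω v w i)) :=
      monIn_map (algebraMap k (AlgebraicClosure k)) g2
    apply no_zero _ g5 x
    intro i
    have h1 := hx i
    rw [aeval_def] at h1
    rw [← Pool.Agent.W193.UB.map_sy, eval_map]
    exact h1
  · show (preP (fun i => (F i).map ((algebraMap (𝓞 k) k).comp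
      (MvPolynomial.eval (vec ω w)))) B).encard = _
    rw [hmem, hn]
    apply le_antisymm
    · exact (few_iff g2 B n).1 g3
    · by_contra hlt
      push Not at hlt
      apply g4
      have hn1 : 1 ≤ n := by
        by_contra h0
        have h1 : n = 0 := by omega
        rw [h1] at hlt
        simp at hlt
      refine ⟨hn1, (few_iff g2 B (n - 1)).2 ?_⟩
      have h5 : ((n - 1 : ℕ) : ℕ∞) + 1 = (n : ℕ∞) := by
        norm_cast
        omega
      rw [← h5] at hlt
      exact Order.le_of_lt_add_one hlt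

end

end Pool.Agent.Q15.DYN
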