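import Pool.Agent.Y706.PT3
import Pool.Agent.Q15.DYN.IntPort
import Pool.Agent.Y706.CH.Upo2

set_option autoImplicit false

/-! The portrait theorem at integral parameters with orbits and boxes, and the uniform bound for the
number of its points. -/

namespace Pool.Agent.Q15.DYN

open MvPolynomial Pool.Agent.H936R2 Pool.Agent.H927R2.RD H294UB Pool.Agent.W275.UB
  Pool.Agent.W193.UB Pool.Agent.W554.UB NumberField Filter Topology Pool.Agent.Y706

theorem portraitIntO (k : Type) [Field k] [NumberField k] (J : Type) [Fintype J]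
    (ω : Module.Basis J ℤ (𝓞 k)) (N d : ℕ) (hd : 2 ≤ d) (m : ℕ)
    (F : Fin (N + 1) → MvPolynomial (Fin (N + 1)) (MvPolynomial (Fin m) (𝓞 k)))
    (hF : ∀ i, (F i).IsHomogeneous d)
    (hmor : MorP fun i => (F i).map (algebraMap (MvPolynomial (Fin m) (𝓞 k)) (KK k (Fin m)))) :
    ∃ (r : ℕ) (x : Fin r → Fin (N + 1) → MvPolynomial (Fin m) (𝓞 k)) (σ : Fin r → Fin r),
      PortO (fun i => (F i).map (algebraMap (MvPolynomial (Fin m) (𝓞 k)) (KK k (Fin m))))
        (fun i j => algebraMap (MvPolynomial (Fin m) (𝓞 k)) (KK k (Fin m)) (x i j)) σ ∧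
      Tendsto (fun H : ℕ =>
        (({v | v ∈ {v : Fin m → 𝓞 k | ∀ l j, |ω.repr (v l) j| ≤ (H : ℤ)} ∧
          (MorP (fun i => (F i).map ((algebraMap (𝓞 k) k).comp (MvPolynomial.eval v))) ∧
            PortO (fun i => (F i).map ((algebraMap (𝓞 k) k).comp (MvPolynomial.eval v)))
              (fun i j => algebraMap (𝓞 k) k (MvPolynomial.eval v (x i j))) σ)} :
            Set (Fin m → 𝓞 k)).ncard : ℝ) /
        (({v : Fin m → 𝓞 k | ∀ l j, |ω.repr (v l) j| ≤ (H : ℤ)}).ncard : ℝ))
        atTop (𝓝 1) := by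
  classical
  obtain ⟨v, hv⟩ : ∃ v : Idx (N + 1) d → MvPolynomial (Fin m) (𝓞 k),
    v = fun i => coeff (expo i.2) (F i.1) := ⟨_, rfl⟩
  have hFv : F = sy v := by
    rw [hv]
    funext i
    exact (form_coeff (hF i)).symm
  have hmap : ∀ {S : Type} [CommRing S] (φ : MvPolynomial (Fin m) (𝓞 k) →+* S),
      (fun i => (F i).map φ) = sy fun i => φ (v i) := by
    intro S _ φ
    rw [hFv]
    exact Pool.Agent.W193.UB.map_sy φ v
  rw [hmap] at hmor ⊢
  obtain ⟨vK, hvK⟩ : ∃ vK : Idx (N + 1) d → KK k (Fin m),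
    vK = fun i => algebraMap (MvPolynomial (Fin m) (𝓞 k)) (KK k (Fin m)) (v i) := ⟨_, rfl⟩
  -- the generic member
  obtain ⟨s, c, hc, hMC⟩ := exists_monC (algebraMap (KK k (Fin m))
    (AlgebraicClosure (KK k (Fin m)))) vK (by
      intro x hx
      apply hmor x
      intro i
      have h1 := hx i
      rw [hvK, ← Pool.Agent.W193.UB.map_sy, eval_map] at h1
      rw [aeval_def]
      exact h1)
  have hc0 : c ≠ 0 := by
    rintro rfl
    exact hc (map_zero _)
  have hM : MonIn s (sy vK) := hMC.monIn (isUnit_iff_ne_zero.2 hc0)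
  rw [hvK] at hM
  obtain ⟨r, x, σ, h1, h2⟩ := portraitInt ω hd v hM
  refine ⟨r, x, σ, h1.portO (Pool.Agent.W193.UB.sy_hom _) hM, ?_⟩
  refine Pool.Agent.W275.ND.ratioV ω (ι := Fin m) _ ?_
  intro ε hε
  refine (h2 ε hε).mono ?_
  intro w hw hcon
  apply hw
  obtain ⟨⟨s', g2⟩, g3⟩ := hcon
  have hmem : (fun i => (F i).map ((algebraMap (𝓞 k) k).comp (MvPolynomial.eval (vec ω w)))) =
      sy (fun i => sp ω w (v i)) := by
    rw [hmap]
    rfl
  refine ⟨?_, ?_⟩
  · show MorP (fun i => (F i).map ((algebraMap (𝓞 k) k).comp (MvPolynomial.eval (vec ω w))))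
    rw [hmem]
    intro x hx
    have g5 : MonIn s' (sy fun i => algebraMap k (AlgebraicClosure k) (sp ω w (v i))) :=
      monIn_map (algebraMap k (AlgebraicClosure k)) g2
    apply no_zero _ g5 x
    intro i
    have h1 := hx i
    rw [aeval_def] at h1
    rw [← Pool.Agent.W193.UB.map_sy, eval_map]
    exact h1
  · show PortO (fun i => (F i).map ((algebraMap (𝓞 k) k).comp (MvPolynomial.eval (vec ω w))))
      (fun i j => algebraMap (𝓞 k) k (MvPolynomial.eval (vec ω w) (x i j))) σ
    rw [hmem]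
    exact g3.portO (Pool.Agent.W193.UB.sy_hom _) g2

/-- the two descriptions of the field of rational functions -/
lemma exists_T' (k : Type) [Field k] [NumberField k] (m : ℕ) :
    ∃ T : KK k (Fin m) →+* FractionRing (MvPolynomial (Fin m) k), Function.Surjective T := by
  have h1 : Function.Injective ((algebraMap (MvPolynomial (Fin m) k)
      (FractionRing (MvPolynomial (Fin m) k))).comp
      (MvPolynomial.map (algebraMap (𝓞 k) k) : MvPolynomial (Fin m) (𝓞 k) →+* _)) :=
    (IsFractionRing.injective (MvPolynomial (Fin m) k) _).comp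
      (MvPolynomial.map_injective _ (FaithfulSMul.algebraMap_injective (𝓞 k) k))
  refine ⟨IsFractionRing.lift h1, ?_⟩
  have h2 : ∀ P : MvPolynomial (Fin m) (𝓞 k), IsFractionRing.lift (K := KK k (Fin m)) h1
      (algebraMap _ (KK k (Fin m)) P) = algebraMap (MvPolynomial (Fin m) k)
        (FractionRing (MvPolynomial (Fin m) k)) (MvPolynomial.map (algebraMap (𝓞 k) k) P) := by
    intro P
    rw [IsFractionRing.lift_algebraMap]
    rfl
  have h3 : ∀ P : MvPolynomial (Fin m) k, ∃ y, IsFractionRing.lift (K := KK k (Fin m)) h1 y =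
      algebraMap (MvPolynomial (Fin m) k) (FractionRing (MvPolynomial (Fin m) k)) P := by
    intro P
    induction P using MvPolynomial.induction_on with
    | C a =>
      obtain ⟨x, y, hy, hxy⟩ := IsFractionRing.div_surjective (A := 𝓞 k) a
      have hy0 : y ≠ 0 := nonZeroDivisors.ne_zero hy
      have hy1 : algebraMap (𝓞 k) k y ≠ 0 := by
        rw [Ne, FaithfulSMul.algebraMap_eq_zero_iff]
        exact hy0
      refine ⟨algebraMap (MvPolynomial (Fin m) (𝓞 k)) (KK k (Fin m)) (C x) /
        algebraMap (MvPolynomial (Fin m) (𝓞 k)) (KK k (Fin m)) (C y), ?_⟩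
      rw [map_div₀, h2, h2, map_C, map_C, div_eq_iff, ← map_mul, ← C_mul, ← hxy,
        div_mul_cancel₀ _ hy1]
      rw [Ne, FaithfulSMul.algebraMap_eq_zero_iff]
      exact fun h => hy1 (C_injective _ _ (by rw [h, map_zero]))
    | add p q hp hq =>
      obtain ⟨a, ha⟩ := hp
      obtain ⟨b, hb⟩ := hq
      exact ⟨a + b, by rw [map_add, map_add, ha, hb]⟩
    | mul_X p j hp =>
      obtain ⟨a, ha⟩ := hp
      refine ⟨a * algebraMap (MvPolynomial (Fin m) (𝓞 k)) (KK k (Fin m)) (X j), ?_⟩
      rw [map_mul, map_mul, ha, h2, map_X]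
  intro x
  obtain ⟨a, b, hb, rfl⟩ := IsFractionRing.div_surjective (A := MvPolynomial (Fin m) k) x
  obtain ⟨y, hy⟩ := h3 a
  obtain ⟨z, hz⟩ := h3 b
  exact ⟨y / z, by rw [map_div₀, hy, hz]⟩

section

variable {K L : Type} [Field K] [Field L]

open Pool.Agent.W277.UH

lemma ratP1_map (T : K →+* L) (p q : Polynomial K) (d : ℕ) (z : Option K) :
    ratP1 (p.map T) (q.map T) d (z.map T) = (ratP1 p q d z).map T := by
  classical
  cases z with
  | none =>
    simp only [ratP1, Option.map_none, Polynomial.coeff_map, map_eq_zero]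
    by_cases h : q.coeff d = 0
    · rw [if_pos h, if_pos h]
      rfl
    · rw [if_neg h, if_neg h, Option.map_some, map_div₀]
  | some z =>
    simp only [ratP1, Option.map_some, Polynomial.eval_map, Polynomial.eval₂_at_apply, map_eq_zero]
    by_cases h : q.eval z = 0
    · rw [if_pos h, if_pos h]
      rfl
    · rw [if_neg h, if_neg h, Option.map_some, map_div₀]

lemma encard_ratP1_map (T : K →+* L) (p q : Polynomial K) (d : ℕ) :
    {z : Option K | (Set.range fun m : ℕ => (ratP1 p q d)^[m] z).Finite}.encard ≤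
      {z : Option L | (Set.range fun m : ℕ => (ratP1 (p.map T) (q.map T) d)^[m] z).Finite}.encard := by
  have hinj : Function.Injective (Option.map T) := Option.map_injective T.injective
  have hit : ∀ (n : ℕ) (z : Option K), (ratP1 (p.map T) (q.map T) d)^[n] (z.map T) =
      ((ratP1 p q d)^[n] z).map T := by
    intro n
    induction n with
    | zero => intro z; rfl
    | succ n ih =>
      intro z
      rw [Function.iterate_succ_apply, ratP1_map, ih, ← Function.iterate_succ_apply]
  rw [← hinj.encard_image]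
  apply Set.encard_le_encard
  rintro _ ⟨z, hz, rfl⟩
  show (Set.range fun m : ℕ => (ratP1 (p.map T) (q.map T) d)^[m] (z.map T)).Finite
  refine (Set.Finite.image (Option.map T) (show (Set.range fun m : ℕ =>
    (ratP1 p q d)^[m] z).Finite from hz)).subset ?_
  rintro _ ⟨n, rfl⟩
  exact ⟨_, ⟨n, rfl⟩, (hit n z).symm⟩

end

end Pool.Agent.Q15.DYN
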