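import Pool.Agent.Q15.DYN.Basic

/-! Preperiodic points of joins of homogeneous maps. -/

set_option autoImplicit false

namespace Pool.Agent.Q15.DYN

open LinearAlgebra.Projectivization

universe u v

section iter

variable {K V : Type*} [Field K] [AddCommGroup V] [Module K V]

/-- eventually periodic lines: larger tails and multiples of the period -/
lemma pre_shift {F : V → V} {d : ℕ} (hF : ∀ (c : K) (x : V), F (c • x) = c ^ d • F x) {x : V}
    {m p : ℕ} {c : K} (hc : c ≠ 0) (h : F^[m + p] x = c • F^[m] x) :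
    ∀ (q e : ℕ), ∃ c' : K, c' ≠ 0 ∧ F^[m + e + q * p] x = c' • F^[m + e] x := by
  have h1 : ∀ e : ℕ, ∃ c' : K, c' ≠ 0 ∧ F^[m + e + p] x = c' • F^[m + e] x := by
    intro e
    refine ⟨c ^ d ^ e, pow_ne_zero _ hc, ?_⟩
    have e1 : m + e + p = e + (m + p) := by ring
    have e2 : m + e = e + m := by ring
    rw [e1, Function.iterate_add_apply, h, iter_smul hF, ← Function.iterate_add_apply, e2]
  intro q
  induction q with
  | zero => intro e; exact ⟨1, one_ne_zero, by simp⟩
  | succ q ih =>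
    intro e
    obtain ⟨c1, hc1, h2⟩ := ih e
    obtain ⟨c2, hc2, h3⟩ := h1 (e + q * p)
    refine ⟨c2 * c1, mul_ne_zero hc2 hc1, ?_⟩
    have e1 : m + e + (q + 1) * p = m + (e + q * p) + p := by ring
    have e2 : m + (e + q * p) = m + e + q * p := by ring
    rw [e1, h3, e2, h2, smul_smul]

/-- common tail and period of two vectors -/
lemma pre_common {W : Type*} [AddCommGroup W] [Module K W] {F : V → V} {G : W → W} {d : ℕ}
    (hF : ∀ (c : K) (x : V), F (c • x) = c ^ d • F x)
    (hG : ∀ (c : K) (x : W), G (c • x) = c ^ d • G x) {x : V} {y : W}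
    (hx : ∃ m n : ℕ, m < n ∧ ∃ c : K, c ≠ 0 ∧ F^[n] x = c • F^[m] x)
    (hy : ∃ m n : ℕ, m < n ∧ ∃ c : K, c ≠ 0 ∧ G^[n] y = c • G^[m] y) :
    ∃ m n : ℕ, m < n ∧ ∃ a b : K, a ≠ 0 ∧ b ≠ 0 ∧ F^[n] x = a • F^[m] x ∧
      G^[n] y = b • G^[m] y := by
  obtain ⟨m, n, hmn, c, hc, h⟩ := hx
  obtain ⟨m', n', hmn', c', hc', h'⟩ := hy
  obtain ⟨p, rfl⟩ : ∃ p, n = m + p := ⟨n - m, by omega⟩
  obtain ⟨p', rfl⟩ : ∃ p', n' = m' + p' := ⟨n' - m', by omega⟩
  obtain ⟨a, ha, h1⟩ := pre_shift hF hc h p' m'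
  obtain ⟨b, hb, h2⟩ := pre_shift hG hc' h' p m
  refine ⟨m + m', m + m' + p' * p, ?_, a, b, ha, hb, h1, ?_⟩
  · have : 0 < p' * p := Nat.mul_pos (by omega) (by omega)
    omega
  · have e1 : m + m' + p' * p = m' + m + p * p' := by ring
    have e2 : m + m' = m' + m := by ring
    rw [e1, e2, h2]

end iter

/-- **Preperiodic points of joins.** -/
theorem join_bound {K : Type u} [Field K] {V : Type v} [AddCommGroup V] [Module K V]
    {β : Type} [Fintype β] {V' : β → Type u} [∀ j, AddCommGroup (V' j)] [∀ j, Module K (V' j)]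
    {d : ℕ} (hd : 2 ≤ d) (π : ∀ j, V →ₗ[K] V' j) (hπ : ∀ x, (∀ j, π j x = 0) → x = 0)
    (F : V → V) (F' : ∀ j, V' j → V' j) (hF : ∀ (c : K) (x : V), F (c • x) = c ^ d • F x)
    (hF' : ∀ j (c : K) (x : V' j), F' j (c • x) = c ^ d • F' j x)
    (hne : ∀ j (x : V' j), x ≠ 0 → F' j x ≠ 0) (hcomm : ∀ j x, π j (F x) = F' j (π j x))
    (μ : Finset K) (hμ : ∀ (z : K) (n : ℕ), 0 < n → z ^ n = 1 → z ∈ μ) (M : β → ℝ)
    (hM : ∀ j, ∀ X : Finset (V' j), (∀ x ∈ X, x ≠ 0) →
      (∀ x ∈ X, ∀ y ∈ X, ∀ c : K, x = c • y → x = y) → (∀ x ∈ X, Pre K (F' j) x) →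
      (X.card : ℝ) ≤ M j)
    (X : Finset V) (hX0 : ∀ x ∈ X, x ≠ 0) (hXc : ∀ x ∈ X, ∀ y ∈ X, ∀ c : K, x = c • y → x = y)
    (hXp : ∀ x ∈ X, Pre K F x) :
    (X.card : ℝ) ≤ (∏ j, (M j + 1)) * (μ.card : ℝ) ^ Fintype.card β := by
  classical
  have hcommn : ∀ (n : ℕ) j x, π j (F^[n] x) = (F' j)^[n] (π j x) := by
    intro n
    induction n with
    | zero => intro j x; rfl
    | succ n ih =>
      intro j x
      rw [Function.iterate_succ_apply', Function.iterate_succ_apply', hcomm, ih]
  -- finiteness of the sets of preperiodic points of the factors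
  have hfin : ∀ j, {p : ℙ K (V' j) | Pre K (F' j) p.rep}.Finite := fun j => (card_points (hM j)).1
  have hcard : ∀ j, ((hfin j).toFinset.card : ℝ) ≤ M j := by
    intro j
    have h1 := (card_points (hM j)).2
    rwa [Set.ncard_eq_toFinset_card _ (hfin j)] at h1
  -- the classes of the components
  let κ : V → ∀ j, Option (ℙ K (V' j)) := fun x j =>
    if h : π j x = 0 then none else some (Projectivization.mk K (π j x) h)
  have hκ0 : ∀ x j, κ x j = none ↔ π j x = 0 := by
    intro x j
    simp only [κ]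
    split_ifs with h
    · simp [h]
    · simp [h]
  have hκ1 : ∀ x y j, π j y ≠ 0 → κ x j = κ y j → ∃ c : K, c ≠ 0 ∧ π j x = c • π j y := by
    intro x y j hy h
    have hx : π j x ≠ 0 := by
      intro h0
      rw [(hκ0 x j).2 h0] at h
      exact hy ((hκ0 y j).1 h.symm)
    simp only [κ, dif_neg hx, dif_neg hy, Option.some.injEq] at h
    obtain ⟨c, hc⟩ := (Projectivization.mk_eq_mk_iff K _ _ hx hy).1 h
    exact ⟨c, c.ne_zero, hc.symm⟩
  have hpre : ∀ x, Pre K F x → ∀ j, π j x ≠ 0 → ∀ p : ℙ K (V' j), κ x j = some p →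
      Pre K (F' j) p.rep := by
    intro x hx j hj p hp
    simp only [κ, dif_neg hj, Option.some.injEq] at hp
    obtain ⟨c, hc⟩ := (Projectivization.mk_eq_mk_iff K _ _ hj p.rep_nonzero).1
      (hp.trans p.mk_rep.symm)
    obtain ⟨m, n, hmn, a, ha, h⟩ := of_pre hx
    have h1 : (F' j)^[n] (π j x) = a • (F' j)^[m] (π j x) := by
      rw [← hcommn, ← hcommn, h, map_smul]
    have hc' : π j x = (c : K) • p.rep := hc.symm
    have hc0 : (c : K) ≠ 0 := c.ne_zero
    rw [hc', iter_smul (hF' j), iter_smul (hF' j)] at h1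
    refine pre_of (hF' j) hmn (c := ((c : K) ^ d ^ n)⁻¹ * (a * (c : K) ^ d ^ m))
      (mul_ne_zero (inv_ne_zero (pow_ne_zero _ hc0)) (mul_ne_zero ha (pow_ne_zero _ hc0))) ?_
    rw [mul_smul, mul_smul, ← h1, smul_smul, inv_mul_cancel₀ (pow_ne_zero _ hc0), one_smul]
  -- the image of `κ`
  let Z : ∀ j, Finset (Option (ℙ K (V' j))) := fun j => insert none ((hfin j).toFinset.image some)
  have hZcard : ∀ j, ((Z j).card : ℝ) ≤ M j + 1 := by
    intro j
    have h1 : (Z j).card ≤ (hfin j).toFinset.card + 1 :=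
      (Finset.card_insert_le _ _).trans (Nat.add_le_add_right Finset.card_image_le 1)
    have h2 : ((Z j).card : ℝ) ≤ ((hfin j).toFinset.card + 1 : ℕ) := by exact_mod_cast h1
    push_cast at h2
    linarith [hcard j]
  have himg : X.image κ ⊆ Fintype.piFinset Z := by
    intro q hq
    obtain ⟨x, hx, rfl⟩ := Finset.mem_image.1 hq
    rw [Fintype.mem_piFinset]
    intro j
    by_cases hj : π j x = 0
    · rw [(hκ0 x j).2 hj]
      exact Finset.mem_insert_self _ _
    · refine Finset.mem_insert_of_mem (Finset.mem_image.2 ⟨Projectivization.mk K (π j x) hj, ?_, ?_⟩)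
      · rw [Set.Finite.mem_toFinset]
        exact hpre x (hXp x hx) j hj _ (by simp only [κ, dif_neg hj])
      · simp only [κ, dif_neg hj]
  -- the fibres
  have hfib : ∀ q ∈ X.image κ, (X.filter fun x => κ x = q).card ≤ μ.card ^ Fintype.card β := by
    intro q hq
    obtain ⟨x0, hx0, rfl⟩ := Finset.mem_image.1 hq
    obtain ⟨j0, hj0⟩ : ∃ j, π j x0 ≠ 0 := by
      by_contra hcon
      push Not at hcon
      exact hX0 x0 hx0 (hπ x0 hcon)
    have ht : ∀ x : V, κ x = κ x0 → ∃ t : β → K, (∀ j, t j ≠ 0) ∧ ∀ j, π j x = t j • π j x0 := by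
      intro x hx
      have h1 : ∀ j, ∃ t : K, t ≠ 0 ∧ π j x = t • π j x0 := by
        intro j
        by_cases hj : π j x0 = 0
        · refine ⟨1, one_ne_zero, ?_⟩
          rw [hj, smul_zero]
          exact (hκ0 x j).1 ((congrFun hx j).trans ((hκ0 x0 j).2 hj))
        · exact hκ1 x x0 j hj (congrFun hx j)
      choose t ht1 ht2 using h1
      exact ⟨t, ht1, ht2⟩
    choose! t ht1 ht2 using ht
    let ρ : V → β → K := fun x j => if π j x0 = 0 then 1 else t x j / t x j0
    have h1 : ∀ x ∈ X.filter fun x => κ x = κ x0, ρ x ∈ Fintype.piFinset fun _ : β => μ := by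
      intro x hx
      rw [Finset.mem_filter] at hx
      obtain ⟨hxX, hxκ⟩ := hx
      rw [Fintype.mem_piFinset]
      intro j
      by_cases hj : π j x0 = 0
      · simp only [ρ, if_pos hj]
        exact hμ 1 1 one_pos (one_pow 1)
      · simp only [ρ, if_neg hj]
        obtain ⟨m, n, hmn, a, b, ha, hb, ha', hb'⟩ := pre_common hF hF (of_pre (hXp x hxX))
          (of_pre (hXp x0 hx0))
        have key : ∀ i, π i x0 ≠ 0 → t x i ^ d ^ n * b = a * t x i ^ d ^ m := by
          intro i hi
          have e1 : (F' i)^[n] (π i x) = a • (F' i)^[m] (π i x) := by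
            rw [← hcommn, ← hcommn, ha', map_smul]
          have e2 : (F' i)^[n] (π i x0) = b • (F' i)^[m] (π i x0) := by
            rw [← hcommn, ← hcommn, hb', map_smul]
          rw [ht2 x hxκ i, iter_smul (hF' i), iter_smul (hF' i), e2, smul_smul, smul_smul] at e1
          have e3 : (F' i)^[m] (π i x0) ≠ 0 := iter_ne (hne i) m _ hi
          exact smul_left_injective K e3 e1
        have k1 := key j hj
        have k2 := key j0 hj0
        have tj := ht1 x hxκ j
        have tj0 := ht1 x hxκ j0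
        have hpow : d ^ m < d ^ n := Nat.pow_lt_pow_right (by omega) hmn
        obtain ⟨r, hr⟩ : ∃ r, d ^ n = d ^ m + r := ⟨d ^ n - d ^ m, by omega⟩
        have hr0 : 0 < r := by omega
        refine hμ _ r hr0 ?_
        rw [hr, pow_add] at k1 k2
        have l1 : t x j ^ r * b = a := by
          have : t x j ^ d ^ m * (t x j ^ r * b) = t x j ^ d ^ m * a := by
            linear_combination k1
          exact mul_left_cancel₀ (pow_ne_zero _ tj) this
        have l2 : t x j0 ^ r * b = a := by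
          have : t x j0 ^ d ^ m * (t x j0 ^ r * b) = t x j0 ^ d ^ m * a := by
            linear_combination k2
          exact mul_left_cancel₀ (pow_ne_zero _ tj0) this
        rw [div_pow, div_eq_one_iff_eq (pow_ne_zero _ tj0)]
        exact mul_right_cancel₀ hb (l1.trans l2.symm)
    have h2 : Set.InjOn ρ (X.filter fun x => κ x = κ x0 : Finset V) := by
      intro x hx y hy hxy
      rw [Finset.mem_coe, Finset.mem_filter] at hx hy
      have hc : x = (t x j0 / t y j0) • y := by
        rw [← sub_eq_zero]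
        apply hπ
        intro j
        rw [map_sub, map_smul, ht2 x hx.2 j, ht2 y hy.2 j, sub_eq_zero]
        by_cases hj : π j x0 = 0
        · rw [hj, smul_zero, smul_zero, smul_zero]
        · have h3 := congrFun hxy j
          simp only [ρ, if_neg hj] at h3
          have tx := ht1 x hx.2 j0
          have ty := ht1 y hy.2 j0
          rw [div_eq_div_iff tx ty] at h3
          rw [smul_smul]
          congr 1
          field_simp
          linear_combination h3
      exact hXc x hx.1 y hy.1 _ hc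
    have h3 := Finset.card_le_card_of_injOn ρ h1 h2
    rw [Fintype.card_piFinset, Finset.prod_const, Finset.card_univ] at h3
    exact h3
  have h1 := Finset.card_le_mul_card_image X _ hfib
  have h2 : ((X.image κ).card : ℝ) ≤ ∏ j, (M j + 1) := by
    have h3 := Finset.card_le_card himg
    rw [Fintype.card_piFinset] at h3
    calc ((X.image κ).card : ℝ) ≤ ((∏ j, (Z j).card : ℕ) : ℝ) := by exact_mod_cast h3
      _ = ∏ j, ((Z j).card : ℝ) := by push_cast; rfl
      _ ≤ ∏ j, (M j + 1) := Finset.prod_le_prod (fun _ _ => Nat.cast_nonneg _) fun j _ => hZcard j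
  calc (X.card : ℝ) ≤ ((μ.card ^ Fintype.card β * (X.image κ).card : ℕ) : ℝ) := by
        exact_mod_cast h1
    _ = (μ.card : ℝ) ^ Fintype.card β * ((X.image κ).card : ℝ) := by push_cast; rfl
    _ ≤ (μ.card : ℝ) ^ Fintype.card β * ∏ j, (M j + 1) := by gcongr
    _ = _ := mul_comm _ _

end Pool.Agent.Q15.DYN
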