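import Mathlib

/-! The number of the roots of unity in a number field of bounded degree. -/

set_option autoImplicit false

namespace Pool.Agent.Q15.DYN

/-- a bound for the orders of the roots of unity in fields of degree `D` -/
def ordBd (D : ℕ) : ℕ := (D * (D + 1)) ^ (D + 1)

lemma le_ordBd {n D : ℕ} (hn : 0 < n) (h : Nat.totient n ≤ D) : n ≤ ordBd D := by
  have hD : 1 ≤ D := (Nat.totient_pos.2 hn).trans_le h
  have h1 : ∀ p ∈ n.primeFactors, p ^ n.factorization p ≤ D * (D + 1) := by
    intro p hp
    have hpp := Nat.prime_of_mem_primeFactors hp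
    have hpn := Nat.dvd_of_mem_primeFactors hp
    have ha : 0 < n.factorization p := hpp.factorization_pos_of_dvd hn.ne' hpn
    have h2 : p ^ n.factorization p ∣ n := Nat.ordProj_dvd n p
    have h3 : Nat.totient (p ^ n.factorization p) ∣ Nat.totient n := Nat.totient_dvd_of_dvd h2
    rw [Nat.totient_prime_pow hpp ha] at h3
    have h4 : p ^ (n.factorization p - 1) * (p - 1) ≤ D :=
      (Nat.le_of_dvd (Nat.totient_pos.2 hn) h3).trans h
    have hp1 : 1 ≤ p - 1 := by have := hpp.two_le; omega
    have h5 : p ^ (n.factorization p - 1) ≤ D := (Nat.le_mul_of_pos_right _ hp1).trans h4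
    have h6 : p - 1 ≤ D := (Nat.le_mul_of_pos_left _ (pow_pos hpp.pos _)).trans h4
    obtain ⟨a, ha'⟩ : ∃ a, n.factorization p = a + 1 := ⟨n.factorization p - 1, by omega⟩
    rw [ha'] at h5 ⊢
    rw [pow_succ]
    have h7 : p ≤ D + 1 := by omega
    exact Nat.mul_le_mul (by simpa using h5) h7
  have h2 : n.primeFactors.card ≤ D + 1 := by
    have h3 : n.primeFactors ⊆ Finset.Icc 1 (D + 1) := by
      intro p hp
      have hpp := Nat.prime_of_mem_primeFactors hp
      have hpn := Nat.dvd_of_mem_primeFactors hp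
      have h4 : Nat.totient p ∣ Nat.totient n := Nat.totient_dvd_of_dvd hpn
      rw [Nat.totient_prime hpp] at h4
      have h5 : p - 1 ≤ D := (Nat.le_of_dvd (Nat.totient_pos.2 hn) h4).trans h
      rw [Finset.mem_Icc]
      have := hpp.two_le
      omega
    have h4 := Finset.card_le_card h3
    simpa using h4
  have h3 : 1 ≤ D * (D + 1) := Nat.mul_pos hD (by omega)
  calc n = ∏ p ∈ n.primeFactors, p ^ n.factorization p :=
        (Nat.factorization_prod_pow_eq_self hn.ne').symm
    _ ≤ ∏ _p ∈ n.primeFactors, (D * (D + 1)) := Finset.prod_le_prod' h1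
    _ = (D * (D + 1)) ^ n.primeFactors.card := Finset.prod_const _
    _ ≤ ordBd D := Nat.pow_le_pow_right h3 h2

/-- the roots of unity in number fields of bounded degree -/
theorem exists_mu (D : ℕ) : ∃ W : ℕ, 1 ≤ W ∧ ∀ (K : Type*) [Field K] [NumberField K],
    Module.finrank ℚ K ≤ D → ∃ μ : Finset K, (∀ (z : K) (n : ℕ), 0 < n → z ^ n = 1 → z ∈ μ) ∧
      μ.card ≤ W := by
  classical
  refine ⟨1 + ∑ n ∈ Finset.range (ordBd D + 1), n, by omega, ?_⟩
  intro K _ _ hK
  refine ⟨(Finset.range (ordBd D + 1)).biUnion fun n => (Polynomial.nthRoots n (1 : K)).toFinset,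
    ?_, ?_⟩
  · intro z n hn hz
    have hfin : IsOfFinOrder z := isOfFinOrder_iff_pow_eq_one.2 ⟨n, hn, hz⟩
    have hpos : 0 < orderOf z := hfin.orderOf_pos
    have hprim : IsPrimitiveRoot z (orderOf z) := IsPrimitiveRoot.orderOf z
    have h1 : Nat.totient (orderOf z) ≤ D := by
      have h2 := hprim.totient_le_degree_minpoly
      have h3 : IsIntegral ℤ z := hprim.isIntegral hpos
      have h4 : (minpoly ℤ z).natDegree = (minpoly ℚ z).natDegree := by
        rw [minpoly.isIntegrallyClosed_eq_field_fractions' ℚ h3]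
        exact ((minpoly.monic h3).natDegree_map _).symm
      rw [h4] at h2
      exact h2.trans ((minpoly.natDegree_le z).trans hK)
    refine Finset.mem_biUnion.2 ⟨orderOf z, ?_, ?_⟩
    · rw [Finset.mem_range]
      exact Nat.lt_succ_of_le (le_ordBd hpos h1)
    · rw [Multiset.mem_toFinset, Polynomial.mem_nthRoots hpos]
      exact pow_orderOf_eq_one z
  · refine Finset.card_biUnion_le.trans ?_
    refine (Finset.sum_le_sum fun n _ => ?_).trans (Nat.le_add_left _ _)
    exact (Multiset.toFinset_card_le _).trans (Polynomial.card_nthRoots n 1)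

end Pool.Agent.Q15.DYN
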