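import Pool.Agent.Q15.DYN.Basic

/-! Polynomial iterates, integral polynomials, good reduction in several variables. -/

set_option autoImplicit false

namespace Pool.Agent.Q15.DYN

open MvPolynomial

section iterates

variable {K : Type*} [Field K] {ι τ : Type*}

/-- the vector of the values -/
noncomputable def evv (F : ι → MvPolynomial ι K) (x : ι → K) : ι → K := fun i => eval x (F i)

/-- iterates as polynomials -/
noncomputable def It (F : ι → MvPolynomial ι K) : ℕ → ι → MvPolynomial ι K
  | 0 => X
  | n + 1 => fun i => aeval (It F n) (F i)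

lemma eval_aeval' (x : τ → K) (g : ι → MvPolynomial τ K) (p : MvPolynomial ι K) :
    eval x (aeval g p) = eval (fun i => eval x (g i)) p := by
  induction p using MvPolynomial.induction_on with
  | C a => simp
  | add p q hp hq => rw [map_add, map_add, hp, hq, map_add]
  | mul_X p i hp => rw [map_mul, aeval_X, map_mul, hp, map_mul, eval_X]

lemma eval_It (F : ι → MvPolynomial ι K) (n : ℕ) (x : ι → K) (i : ι) :
    eval x (It F n i) = (evv F)^[n] x i := by
  induction n generalizing i with
  | zero => simp [It]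
  | succ n ih =>
    rw [Function.iterate_succ_apply']
    show eval x (aeval (It F n) (F i)) = eval _ (F i)
    rw [eval_aeval']
    congr 2
    funext j
    exact ih j

lemma It_hom {F : ι → MvPolynomial ι K} {d : ℕ} (hF : ∀ i, (F i).IsHomogeneous d) (n : ℕ) (i : ι) :
    (It F n i).IsHomogeneous (d ^ n) := by
  induction n generalizing i with
  | zero => simpa [It] using isHomogeneous_X K i
  | succ n ih =>
    rw [pow_succ]
    exact (hF i).aeval (It F n) ih

lemma map_aeval' {L : Type*} [Field L] (φ : K →+* L) (g : ι → MvPolynomial τ K)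
    (p : MvPolynomial ι K) : map φ (aeval g p) = aeval (fun i => map φ (g i)) (map φ p) := by
  induction p using MvPolynomial.induction_on with
  | C a => simp
  | add p q hp hq => rw [map_add, map_add, hp, hq, map_add, map_add]
  | mul_X p i hp => rw [map_mul, aeval_X, map_mul, hp, map_mul, map_mul, map_X, aeval_X]

lemma It_map {L : Type*} [Field L] (φ : K →+* L) (F : ι → MvPolynomial ι K) (n : ℕ) (i : ι) :
    It (fun j => map φ (F j)) n i = map φ (It F n i) := by
  induction n generalizing i with
  | zero => simp [It]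
  | succ n ih =>
    show aeval (It (fun j => map φ (F j)) n) (map φ (F i)) = map φ (aeval (It F n) (F i))
    rw [map_aeval']
    congr 2
    funext j
    exact ih j

lemma eval_smul' {d : ℕ} {f : MvPolynomial ι K} (hf : f.IsHomogeneous d) (c : K) (x : ι → K) :
    eval (c • x) f = c ^ d * eval x f := by
  rw [eval_eq, eval_eq, Finset.mul_sum]
  refine Finset.sum_congr rfl fun m hm => ?_
  have h1 : ∑ i ∈ m.support, m i = d := by
    have h2 := hf (mem_support_iff.1 hm)
    rw [← h2, Finsupp.weight_apply, Finsupp.sum]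
    simp
  simp only [Pi.smul_apply, smul_eq_mul, mul_pow]
  rw [Finset.prod_mul_distrib, Finset.prod_pow_eq_pow_sum, h1]
  ring

lemma evv_smul {F : ι → MvPolynomial ι K} {d : ℕ} (hF : ∀ i, (F i).IsHomogeneous d) (c : K)
    (x : ι → K) : evv F (c • x) = c ^ d • evv F x := by
  funext i
  exact eval_smul' (hF i) c x

end iterates

section integral

variable {Ω : Type*} [Field Ω] (w : AbsoluteValue Ω ℝ) {ι τ : Type*}

/-- integral coefficients -/
def IntP (p : MvPolynomial ι Ω) : Prop := ∀ m, w (p.coeff m) ≤ 1

variable {w}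

lemma IntP.zero : IntP w (0 : MvPolynomial ι Ω) := fun m => by
  rw [coeff_zero, map_zero]
  exact zero_le_one

lemma IntP.add (hw : IsNonarchimedean w) {p q : MvPolynomial ι Ω} (hp : IntP w p)
    (hq : IntP w q) : IntP w (p + q) := fun m => by
  rw [coeff_add]
  exact (hw _ _).trans (max_le (hp m) (hq m))

lemma IntP.sum (hw : IsNonarchimedean w) {α : Type*} (s : Finset α) {f : α → MvPolynomial ι Ω}
    (h : ∀ a ∈ s, IntP w (f a)) : IntP w (∑ a ∈ s, f a) := by
  classical
  induction s using Finset.induction_on with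
  | empty => simpa using IntP.zero
  | insert a s ha ih =>
    rw [Finset.sum_insert ha]
    exact (h a (Finset.mem_insert_self _ _)).add hw
      (ih fun b hb => h b (Finset.mem_insert_of_mem hb))

lemma sum_le (hw : IsNonarchimedean w) {α : Type*} (s : Finset α) {f : α → Ω}
    (h : ∀ a ∈ s, w (f a) ≤ 1) : w (∑ a ∈ s, f a) ≤ 1 := by
  classical
  induction s using Finset.induction_on with
  | empty => simp
  | insert a s ha ih =>
    rw [Finset.sum_insert ha]
    exact (hw _ _).trans (max_le (h a (Finset.mem_insert_self _ _))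
      (ih fun b hb => h b (Finset.mem_insert_of_mem hb)))

lemma IntP.mul (hw : IsNonarchimedean w) {p q : MvPolynomial ι Ω} (hp : IntP w p)
    (hq : IntP w q) : IntP w (p * q) := fun m => by
  classical
  rw [coeff_mul]
  refine sum_le hw _ fun x _ => ?_
  rw [map_mul]
  exact mul_le_one₀ (hp _) (w.nonneg _) (hq _)

lemma IntP.C {a : Ω} (ha : w a ≤ 1) : IntP w (MvPolynomial.C a : MvPolynomial ι Ω) := fun m => by
  classical
  rw [coeff_C]
  split_ifs
  · exact ha
  · rw [map_zero]
    exact zero_le_one

lemma IntP.X (i : ι) : IntP w (MvPolynomial.X i : MvPolynomial ι Ω) := fun m => by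
  classical
  rw [coeff_X]
  split_ifs
  · rw [map_one]
  · rw [map_zero]
    exact zero_le_one

lemma IntP.one : IntP w (1 : MvPolynomial ι Ω) := by
  have h := IntP.C (w := w) (ι := ι) (a := 1) (by rw [map_one])
  rwa [map_one] at h

lemma IntP.pow (hw : IsNonarchimedean w) {p : MvPolynomial ι Ω} (hp : IntP w p) (n : ℕ) :
    IntP w (p ^ n) := by
  induction n with
  | zero => rw [pow_zero]; exact IntP.one
  | succ n ih => rw [pow_succ]; exact ih.mul hw hp

lemma IntP.prod (hw : IsNonarchimedean w) {α : Type*} (s : Finset α) {f : α → MvPolynomial ι Ω}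
    (h : ∀ a ∈ s, IntP w (f a)) : IntP w (∏ a ∈ s, f a) := by
  classical
  induction s using Finset.induction_on with
  | empty => simpa using IntP.one
  | insert a s ha ih =>
    rw [Finset.prod_insert ha]
    exact (h a (Finset.mem_insert_self _ _)).mul hw
      (ih fun b hb => h b (Finset.mem_insert_of_mem hb))

lemma IntP.aeval (hw : IsNonarchimedean w) {p : MvPolynomial ι Ω} (hp : IntP w p)
    {g : ι → MvPolynomial τ Ω} (hg : ∀ i, IntP w (g i)) : IntP w (MvPolynomial.aeval g p) := by
  rw [aeval_def, eval₂_eq]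
  refine IntP.sum hw _ fun m _ => ?_
  refine IntP.mul hw (IntP.C (hp m)) ?_
  exact IntP.prod hw _ fun i _ => (hg i).pow hw _

lemma IntP.eval_le (hw : IsNonarchimedean w) {p : MvPolynomial ι Ω} (hp : IntP w p) {x : ι → Ω}
    (hx : ∀ i, w (x i) ≤ 1) : w (eval x p) ≤ 1 := by
  rw [eval_eq]
  refine sum_le hw _ fun m _ => ?_
  rw [map_mul, map_prod]
  refine mul_le_one₀ (hp m) (Finset.prod_nonneg fun i _ => w.nonneg _) ?_
  refine Finset.prod_le_one (fun i _ => w.nonneg _) fun i _ => ?_
  rw [map_pow]
  exact pow_le_one₀ (w.nonneg _) (hx i)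

/-- vectors of norm one -/
def UV (w : AbsoluteValue Ω ℝ) (x : ι → Ω) : Prop := (∀ i, w (x i) ≤ 1) ∧ ∃ i, w (x i) = 1

/-- good reduction -/
def GoodV (w : AbsoluteValue Ω ℝ) (F : ι → MvPolynomial ι Ω) : Prop :=
  (∀ i, IntP w (F i)) ∧ ∀ x : ι → Ω, UV w x → ∃ i, w (eval x (F i)) = 1

lemma GoodV.uv (hw : IsNonarchimedean w) {F : ι → MvPolynomial ι Ω} (h : GoodV w F) {x : ι → Ω}
    (hx : UV w x) : UV w (evv F x) :=
  ⟨fun i => (h.1 i).eval_le hw hx.1, h.2 x hx⟩

lemma GoodV.uv_iter (hw : IsNonarchimedean w) {F : ι → MvPolynomial ι Ω} (h : GoodV w F) (n : ℕ)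
    {x : ι → Ω} (hx : UV w x) : UV w ((evv F)^[n] x) := by
  induction n with
  | zero => exact hx
  | succ n ih =>
    rw [Function.iterate_succ_apply']
    exact h.uv hw ih

lemma It_int (hw : IsNonarchimedean w) {F : ι → MvPolynomial ι Ω} (h : ∀ i, IntP w (F i)) (n : ℕ)
    (i : ι) : IntP w (It F n i) := by
  induction n generalizing i with
  | zero => exact IntP.X i
  | succ n ih => exact (h i).aeval hw ih

end integral

end Pool.Agent.Q15.DYN
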