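import Pool.Agent.Q15.DYN.Tri1

/-! The binary maps on the fibres of a triangular map. -/

set_option autoImplicit false

namespace Pool.Agent.Q15.DYN

open MvPolynomial

section fib

variable {K : Type*} [Field K] {n : ℕ}

/-- the plane spanned by `x1` and the last coordinate vector -/
def io (x1 : Fin (n + 1) → K) (u : Fin 2 → K) : Fin (n + 2) → K :=
  Fin.snoc (α := fun _ => K) (u 0 • x1) (u 1)

lemma io_cs (x1 : Fin (n + 1) → K) (u : Fin 2 → K) (i : Fin (n + 1)) :
    io x1 u (Fin.castSucc i) = u 0 * x1 i := by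
  unfold io
  rw [Fin.snoc_castSucc]
  rfl

lemma io_last (x1 : Fin (n + 1) → K) (u : Fin 2 → K) : io x1 u (Fin.last _) = u 1 := by
  unfold io
  rw [Fin.snoc_last]

lemma io_smul (x1 : Fin (n + 1) → K) (c : K) (u : Fin 2 → K) : io x1 (c • u) = c • io x1 u := by
  funext i
  refine Fin.lastCases ?_ (fun i => ?_) i
  · rw [Pi.smul_apply, io_last, io_last]
    rfl
  · rw [Pi.smul_apply, io_cs, io_cs]
    simp only [Pi.smul_apply, smul_eq_mul]
    ring

lemma io_inj {x1 : Fin (n + 1) → K} (hx : x1 ≠ 0) {u v : Fin 2 → K} (h : io x1 u = io x1 v) :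
    u = v := by
  obtain ⟨i, hi⟩ := Function.ne_iff.1 hx
  have h1 : u 1 = v 1 := by rw [← io_last x1 u, h, io_last]
  have h2 : u 0 * x1 i = v 0 * x1 i := by rw [← io_cs x1 u, h, io_cs]
  have h0 : u 0 = v 0 := mul_right_cancel₀ hi h2
  funext j
  fin_cases j
  · exact h0
  · exact h1

/-- the binary map on a periodic fibre -/
noncomputable def fib (F : Fin (n + 2) → MvPolynomial (Fin (n + 2)) K) (x1 : Fin (n + 1) → K)
    (c : K) (d p : ℕ) : Fin 2 → MvPolynomial (Fin 2) K :=
  ![C c * X 0 ^ d ^ p, aeval (Fin.snoc (α := fun _ => MvPolynomial (Fin 2) K)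
    (fun i => C (x1 i) * X 0) (X 1)) (It F p (Fin.last _))]

variable {F : Fin (n + 2) → MvPolynomial (Fin (n + 2)) K}
  {G : Fin (n + 1) → MvPolynomial (Fin (n + 1)) K}
  (hFG : ∀ i : Fin (n + 1), F (Fin.castSucc i) = rename Fin.castSucc (G i))
include hFG

lemma init_evv (x : Fin (n + 2) → K) :
    (fun i : Fin (n + 1) => evv F x (Fin.castSucc i)) = evv G fun i => x (Fin.castSucc i) := by
  funext i
  show eval x (F (Fin.castSucc i)) = _
  rw [hFG, eval_rename]
  rfl

lemma init_iter (p : ℕ) (x : Fin (n + 2) → K) :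
    (fun i : Fin (n + 1) => (evv F)^[p] x (Fin.castSucc i)) =
      (evv G)^[p] fun i => x (Fin.castSucc i) := by
  induction p with
  | zero => rfl
  | succ p ih =>
    rw [Function.iterate_succ_apply', Function.iterate_succ_apply', init_evv hFG, ih]

lemma fib_spec {x1 : Fin (n + 1) → K} {c : K} {d p : ℕ} (hG : ∀ i, (G i).IsHomogeneous d)
    (hx : (evv G)^[p] x1 = c • x1) (u : Fin 2 → K) :
    (evv F)^[p] (io x1 u) = io x1 (evv (fib F x1 c d p) u) := by
  have h0 : (fun i : Fin (n + 1) => io x1 u (Fin.castSucc i)) = u 0 • x1 := by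
    funext i
    rw [io_cs]
    rfl
  funext i
  refine Fin.lastCases ?_ (fun i => ?_) i
  · rw [io_last]
    show _ = eval u (fib F x1 c d p 1)
    unfold fib
    simp only [Matrix.cons_val_one, Matrix.cons_val_fin_one]
    rw [eval_aeval', ← eval_It]
    congr 2
    funext j
    refine Fin.lastCases ?_ (fun j => ?_) j
    · rw [Fin.snoc_last, eval_X, io_last]
    · rw [Fin.snoc_castSucc, map_mul, eval_C, eval_X, io_cs]
      ring
  · rw [io_cs]
    have h1 := congrFun (init_iter hFG p (io x1 u)) i
    rw [h1, h0, iter_smul (evv_smul hG), hx]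
    show _ = eval u (fib F x1 c d p 0) * x1 i
    unfold fib
    simp only [Matrix.cons_val_zero, map_mul, eval_C, map_pow, eval_X, Pi.smul_apply, smul_eq_mul]
    ring

lemma fib_iter {x1 : Fin (n + 1) → K} {c : K} {d p : ℕ} (hG : ∀ i, (G i).IsHomogeneous d)
    (hx : (evv G)^[p] x1 = c • x1) (j : ℕ) (u : Fin 2 → K) :
    (evv F)^[p * j] (io x1 u) = io x1 ((evv (fib F x1 c d p))^[j] u) := by
  induction j with
  | zero => rfl
  | succ j ih =>
    have e : p * (j + 1) = p + p * j := by ring
    rw [e, Function.iterate_add_apply, ih, fib_spec hFG hG hx, Function.iterate_succ_apply']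

omit hFG in
lemma fib_hom {x1 : Fin (n + 1) → K} {c : K} {d p : ℕ} (hF : ∀ i, (F i).IsHomogeneous d)
    (i : Fin 2) : (fib F x1 c d p i).IsHomogeneous (d ^ p) := by
  fin_cases i
  · have h := (isHomogeneous_C (Fin 2) c).mul ((isHomogeneous_X K (0 : Fin 2)).pow (d ^ p))
    simpa [fib] using h
  · have h := (It_hom hF p (Fin.last _)).aeval (n := 1) (Fin.snoc
      (α := fun _ => MvPolynomial (Fin 2) K) (fun i => C (x1 i) * X 0) (X 1)) (by
      intro j
      refine Fin.lastCases ?_ (fun j => ?_) j
      · rw [Fin.snoc_last]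
        exact isHomogeneous_X K _
      · rw [Fin.snoc_castSucc]
        have h1 := (isHomogeneous_C (Fin 2) (x1 j)).mul (isHomogeneous_X K (0 : Fin 2))
        simpa using h1)
    rw [one_mul] at h
    exact h

omit hFG in
lemma fib_map {L : Type*} [Field L] (φ : K →+* L) (x1 : Fin (n + 1) → K) (c : K) (d p : ℕ)
    (i : Fin 2) : map φ (fib F x1 c d p i) =
      fib (fun j => map φ (F j)) (fun j => φ (x1 j)) (φ c) d p i := by
  fin_cases i
  · show map φ (C c * X 0 ^ d ^ p) = C (φ c) * X 0 ^ d ^ p
    simp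
  · show map φ (aeval _ (It F p (Fin.last _))) = aeval _ (It (fun j => map φ (F j)) p (Fin.last _))
    rw [map_aeval', It_map]
    congr 2
    funext j
    refine Fin.lastCases ?_ (fun j => ?_) j
    · rw [Fin.snoc_last, Fin.snoc_last, map_X]
    · rw [Fin.snoc_castSucc, Fin.snoc_castSucc, map_mul, map_C, map_X]

end fib

section good

variable {Ω : Type*} [Field Ω] {w : AbsoluteValue Ω ℝ} {n : ℕ}

lemma io_uv {x1 : Fin (n + 1) → Ω} (hx : UV w x1) {u : Fin 2 → Ω} (hu : UV w u) :
    UV w (io x1 u) := by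
  refine ⟨fun i => ?_, ?_⟩
  · refine Fin.lastCases ?_ (fun i => ?_) i
    · rw [io_last]
      exact hu.1 1
    · rw [io_cs, map_mul]
      exact mul_le_one₀ (hu.1 0) (w.nonneg _) (hx.1 i)
  · obtain ⟨j, hj⟩ := hu.2
    fin_cases j
    · obtain ⟨i, hi⟩ := hx.2
      refine ⟨Fin.castSucc i, ?_⟩
      rw [io_cs, map_mul, hi, mul_one]
      exact hj
    · refine ⟨Fin.last _, ?_⟩
      rw [io_last]
      exact hj

lemma fib_good (hw : IsNonarchimedean w) {F : Fin (n + 2) → MvPolynomial (Fin (n + 2)) Ω}
    {G : Fin (n + 1) → MvPolynomial (Fin (n + 1)) Ω}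
    (hFG : ∀ i : Fin (n + 1), F (Fin.castSucc i) = rename Fin.castSucc (G i))
    (hF : GoodV w F) {x1 : Fin (n + 1) → Ω} (hx1 : UV w x1) {c : Ω} {d p : ℕ}
    (hG : ∀ i, (G i).IsHomogeneous d) (hx : (evv G)^[p] x1 = c • x1) :
    GoodV w (fib F x1 c d p) := by
  have hc : w c ≤ 1 := by
    have h1 : UV w (io x1 ![1, 0]) := io_uv hx1 ⟨fun i => by fin_cases i <;> simp, 0, by simp⟩
    have h2 := hF.uv_iter hw p h1
    rw [fib_spec hFG hG hx] at h2
    obtain ⟨i, hi⟩ := hx1.2
    have h3 := h2.1 (Fin.castSucc i)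
    rw [io_cs, map_mul, hi, mul_one] at h3
    have h4 : evv (fib F x1 c d p) ![1, 0] 0 = c := by
      show eval _ (C c * X 0 ^ d ^ p) = c
      simp
    rwa [h4] at h3
  refine ⟨fun i => ?_, fun u hu => ?_⟩
  · fin_cases i
    · exact (IntP.C hc).mul hw ((IntP.X 0).pow hw _)
    · refine (It_int hw hF.1 p (Fin.last _)).aeval hw fun j => ?_
      refine Fin.lastCases ?_ (fun j => ?_) j
      · rw [Fin.snoc_last]
        exact IntP.X 1
      · rw [Fin.snoc_castSucc]
        exact (IntP.C (hx1.1 j)).mul hw (IntP.X 0)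
  · have h2 := hF.uv_iter hw p (io_uv hx1 hu)
    rw [fib_spec hFG hG hx] at h2
    have hle : ∀ i, w (evv (fib F x1 c d p) u i) ≤ 1 := by
      intro i
      fin_cases i
      · obtain ⟨i, hi⟩ := hx1.2
        have h3 := h2.1 (Fin.castSucc i)
        rw [io_cs, map_mul, hi, mul_one] at h3
        exact h3
      · have h3 := h2.1 (Fin.last _)
        rw [io_last] at h3
        exact h3
    obtain ⟨j, hj⟩ := h2.2
    revert hj
    refine Fin.lastCases (fun hj => ?_) (fun j hj => ?_) j
    · rw [io_last] at hj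
      exact ⟨1, hj⟩
    · rw [io_cs, map_mul] at hj
      refine ⟨0, ?_⟩
      have h3 := hle 0
      have h4 := hx1.1 j
      have h5 := w.nonneg (evv (fib F x1 c d p) u 0)
      have h6 := w.nonneg (x1 j)
      have h7 : w (evv (fib F x1 c d p) u 0) = 1 := by
        apply le_antisymm h3
        by_contra hlt
        push Not at hlt
        have : w (evv (fib F x1 c d p) u 0) * w (x1 j) < 1 := by nlinarith
        linarith
      exact h7

/-- a root in the unit disc -/
lemma exists_root_disc [IsAlgClosed Ω] (hw : IsNonarchimedean w) {D : ℕ} (hD : 1 ≤ D)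
    {P : MvPolynomial (Fin (n + 2)) Ω} (hP : P.IsHomogeneous D) (hPi : IntP w P)
    {x : Fin (n + 1) → Ω} (hx : ∀ i, w (x i) ≤ 1)
    (he : w (eval (Fin.snoc (α := fun _ => Ω) (0 : Fin (n + 1) → Ω) 1) P) = 1) :
    ∃ y : Ω, w y ≤ 1 ∧ eval (Fin.snoc (α := fun _ => Ω) x y) P = 0 := by
  classical
  set a : Ω := eval (Fin.snoc (α := fun _ => Ω) (0 : Fin (n + 1) → Ω) 1) P with ha
  have ha0 : a ≠ 0 := by
    intro h
    rw [h, map_zero] at he
    exact zero_ne_one he
  -- the polynomial `P(Z x, 1)`
  set s : Polynomial Ω := aeval (Fin.snoc (α := fun _ => Polynomial Ω)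
    (fun i => Polynomial.C (x i) * Polynomial.X) 1) P with hs
  set q : Polynomial Ω := aeval (Fin.snoc (α := fun _ => Polynomial Ω)
    (fun i => Polynomial.C (x i)) Polynomial.X) P with hq
  have hev : ∀ (g : Fin (n + 2) → Polynomial Ω) (z : Ω), (aeval g P).eval z =
      eval (fun i => (g i).eval z) P := by
    intro g z
    have : ∀ P : MvPolynomial (Fin (n + 2)) Ω, (aeval g P).eval z =
        eval (fun i => (g i).eval z) P := by
      intro P
      induction P using MvPolynomial.induction_on with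
      | C a => simp
      | add p q hp hq => rw [map_add, Polynomial.eval_add, hp, hq, map_add]
      | mul_X p i hp => rw [map_mul, aeval_X, Polynomial.eval_mul, hp, map_mul, eval_X]
    exact this P
  have hsz : ∀ z : Ω, s.eval z = eval (Fin.snoc (α := fun _ => Ω) (z • x) 1) P := by
    intro z
    rw [hs, hev]
    congr 2
    funext j
    refine Fin.lastCases ?_ (fun j => ?_) j
    · rw [Fin.snoc_last, Fin.snoc_last, Polynomial.eval_one]
    · rw [Fin.snoc_castSucc, Fin.snoc_castSucc, Polynomial.eval_mul, Polynomial.eval_C,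
        Polynomial.eval_X, Pi.smul_apply, smul_eq_mul, mul_comm]
  have hqy : ∀ y : Ω, q.eval y = eval (Fin.snoc (α := fun _ => Ω) x y) P := by
    intro y
    rw [hq, hev]
    congr 2
    funext j
    refine Fin.lastCases ?_ (fun j => ?_) j
    · rw [Fin.snoc_last, Fin.snoc_last, Polynomial.eval_X]
    · rw [Fin.snoc_castSucc, Fin.snoc_castSucc, Polynomial.eval_C]
  have hrel : ∀ z : Ω, z ≠ 0 → s.eval z = z ^ D * q.eval z⁻¹ := by
    intro z hz
    rw [hsz, hqy, ← eval_smul' hP]
    congr 2
    funext j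
    refine Fin.lastCases ?_ (fun j => ?_) j
    · rw [Fin.snoc_last, Pi.smul_apply, Fin.snoc_last, smul_eq_mul, mul_inv_cancel₀ hz]
    · show _ = z * (Fin.snoc x z⁻¹ : Fin (n + 2) → Ω) j.castSucc
      rw [Fin.snoc_castSucc, Fin.snoc_castSucc]
      rfl
  have hs0 : s.eval 0 = a := by
    rw [hsz, zero_smul]
  -- `s` has integral coefficients
  have hsi : ∀ j, w (s.coeff j) ≤ 1 := by
    have h1 : ∀ p q : Polynomial Ω, (∀ j, w (p.coeff j) ≤ 1) → (∀ j, w (q.coeff j) ≤ 1) →
        ∀ j, w ((p * q).coeff j) ≤ 1 := by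
      intro p q hp hq j
      rw [Polynomial.coeff_mul]
      refine sum_le hw _ fun y _ => ?_
      rw [map_mul]
      exact mul_le_one₀ (hp _) (w.nonneg _) (hq _)
    have hone : ∀ j, w ((1 : Polynomial Ω).coeff j) ≤ 1 := by
      intro j
      rw [Polynomial.coeff_one]
      split_ifs
      · rw [map_one]
      · rw [map_zero]; exact zero_le_one
    have h2 : ∀ (p : Polynomial Ω) (m : ℕ), (∀ j, w (p.coeff j) ≤ 1) →
        ∀ j, w ((p ^ m).coeff j) ≤ 1 := by
      intro p m hp
      induction m with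
      | zero => simpa using hone
      | succ m ih => rw [pow_succ]; exact h1 _ _ ih hp
    have h3 : ∀ (t : Finset (Fin (n + 2))) (f : Fin (n + 2) → Polynomial Ω),
        (∀ i j, w ((f i).coeff j) ≤ 1) → ∀ j, w ((∏ i ∈ t, f i).coeff j) ≤ 1 := by
      intro t f hf
      induction t using Finset.induction_on with
      | empty => simpa using hone
      | insert i t hi ih => rw [Finset.prod_insert hi]; exact h1 _ _ (hf i) ih
    intro j
    rw [hs, aeval_def, eval₂_eq, Polynomial.finsetSum_coeff]
    refine sum_le hw _ fun m _ => ?_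
    rw [Polynomial.algebraMap_eq, Polynomial.coeff_C_mul, map_mul]
    refine mul_le_one₀ (hPi m) (w.nonneg _) ?_
    refine h3 _ _ (fun i => h2 _ _ ?_) j
    intro j
    refine Fin.lastCases ?_ (fun i => ?_) i
    · rw [Fin.snoc_last]
      exact hone j
    · rw [Fin.snoc_castSucc, Polynomial.coeff_C_mul, map_mul, Polynomial.coeff_X]
      refine mul_le_one₀ (hx i) (w.nonneg _) ?_
      split_ifs
      · rw [map_one]
      · rw [map_zero]; exact zero_le_one
  by_cases hdeg : s.natDegree = 0
  · -- constant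
    have hsC : s = Polynomial.C a := by
      rw [← hs0, ← Polynomial.coeff_zero_eq_eval_zero]
      exact Polynomial.eq_C_of_natDegree_eq_zero hdeg
    have hq2 : q = Polynomial.C a * Polynomial.X ^ D := by
      have hinf : Infinite Ω := IsAlgClosed.instInfinite
      rw [← sub_eq_zero]
      apply Polynomial.eq_zero_of_infinite_isRoot
      refine Set.Infinite.mono (s := {y : Ω | y ≠ 0}) ?_ ?_
      · intro y hy
        have h1 := hrel y⁻¹ (inv_ne_zero hy)
        rw [inv_inv, hsC, Polynomial.eval_C] at h1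
        show Polynomial.eval y _ = 0
        rw [Polynomial.eval_sub, Polynomial.eval_mul, Polynomial.eval_C, Polynomial.eval_pow,
          Polynomial.eval_X, h1]
        have hy' : y ≠ 0 := hy
        have h2 : y⁻¹ ^ D * y ^ D = 1 := by
          rw [← mul_pow, inv_mul_cancel₀ hy', one_pow]
        linear_combination (-Polynomial.eval y q) * h2
      · have h1 : {y : Ω | y ≠ 0} = {0}ᶜ := by ext; simp
        rw [h1]
        exact (Set.finite_singleton _).infinite_compl
    refine ⟨0, by rw [map_zero]; exact zero_le_one, ?_⟩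
    rw [← hqy, hq2]
    simp [show D ≠ 0 by omega]
  · -- a root of absolute value at least one
    have hsne : s ≠ 0 := by
      rintro h
      rw [h] at hdeg
      exact hdeg Polynomial.natDegree_zero
    have hsplit := IsAlgClosed.splits s
    have hprod := hsplit.eq_prod_roots
    have hcardr : s.roots.card = s.natDegree := hsplit.natDegree_eq_card_roots.symm
    obtain ⟨z, hz, hz1⟩ : ∃ z ∈ s.roots, 1 ≤ w z := by
      by_contra hcon
      push Not at hcon
      have h1 : a = s.leadingCoeff * (s.roots.map fun r => -r).prod := by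
        rw [← hs0]
        conv_lhs => rw [hprod]
        rw [Polynomial.eval_mul, Polynomial.eval_C, Polynomial.eval_multiset_prod,
          Multiset.map_map]
        congr 2
        refine Multiset.map_congr rfl fun r _ => ?_
        simp
      have h2 : ∀ t : Multiset Ω, (∀ r ∈ t, w r < 1) → w (t.map fun r => -r).prod ≤ 1 ∧
          (t ≠ 0 → w (t.map fun r => -r).prod < 1) := by
        intro t
        induction t using Multiset.induction_on with
        | empty => intro _; simp
        | cons r t ih =>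
          intro ht
          have h3 := ih fun r' hr' => ht r' (Multiset.mem_cons_of_mem hr')
          have h4 := ht r (Multiset.mem_cons_self r t)
          rw [Multiset.map_cons, Multiset.prod_cons, map_mul, w.map_neg]
          have h5 := w.nonneg r
          have h6 := w.nonneg (t.map fun r => -r).prod
          constructor
          · nlinarith [h3.1]
          · intro _
            nlinarith [h3.1]
      have h3 := (h2 s.roots hcon).2 (by
        intro h0
        rw [h0, Multiset.card_zero] at hcardr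
        exact hdeg hcardr.symm)
      have h4 : w a < 1 := by
        rw [h1, map_mul]
        have h5 := hsi s.natDegree
        have h6 := w.nonneg (s.roots.map fun r => -r).prod
        have h7 : w s.leadingCoeff ≤ 1 := h5
        have h8 := w.nonneg s.leadingCoeff
        nlinarith
      linarith
    have hz0 : z ≠ 0 := by
      rintro rfl
      rw [map_zero] at hz1
      linarith
    refine ⟨z⁻¹, ?_, ?_⟩
    · rw [map_inv₀]
      exact inv_le_one_of_one_le₀ hz1
    · have h1 : s.eval z = 0 := (Polynomial.mem_roots hsne).1 hz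
      rw [hrel z hz0] at h1
      rw [← hqy]
      exact (mul_eq_zero.1 h1).resolve_left (pow_ne_zero _ hz0)

/-- the base of a triangular map with good reduction has good reduction -/
lemma base_good [IsAlgClosed Ω] (hw : IsNonarchimedean w) {d : ℕ} (hd : 1 ≤ d)
    {F : Fin (n + 2) → MvPolynomial (Fin (n + 2)) Ω}
    {G : Fin (n + 1) → MvPolynomial (Fin (n + 1)) Ω}
    (hFG : ∀ i : Fin (n + 1), F (Fin.castSucc i) = rename Fin.castSucc (G i))
    (hFh : ∀ i, (F i).IsHomogeneous d) (hGh : ∀ i, (G i).IsHomogeneous d)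
    (hF : GoodV w F) (hGi : ∀ i, IntP w (G i)) : GoodV w G := by
  refine ⟨hGi, fun x hx => ?_⟩
  have he : UV w (Fin.snoc (α := fun _ => Ω) (0 : Fin (n + 1) → Ω) 1) := by
    refine ⟨fun i => ?_, Fin.last _, ?_⟩
    · refine Fin.lastCases ?_ (fun i => ?_) i
      · rw [Fin.snoc_last, map_one]
      · rw [Fin.snoc_castSucc]
        simp
    · rw [Fin.snoc_last, map_one]
  have h1 : w (eval (Fin.snoc (α := fun _ => Ω) (0 : Fin (n + 1) → Ω) 1) (F (Fin.last _))) = 1 := by
    obtain ⟨i, hi⟩ := hF.2 _ he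
    revert hi
    refine Fin.lastCases (fun hi => hi) (fun i hi => ?_) i
    exfalso
    rw [hFG, eval_rename] at hi
    have h2 : ((Fin.snoc (α := fun _ => Ω) (0 : Fin (n + 1) → Ω) 1 : Fin (n + 2) → Ω) ∘
        Fin.castSucc) = (0 : Ω) • (0 : Fin (n + 1) → Ω) := by
      funext j
      simp [Fin.snoc_castSucc]
    rw [h2, eval_smul' (hGh i), zero_pow (by omega), zero_mul, map_zero] at hi
    exact zero_ne_one hi
  obtain ⟨y, hy, hy0⟩ := exists_root_disc hw hd (hFh (Fin.last _)) (hF.1 _) hx.1 h1
  have h2 : UV w (Fin.snoc (α := fun _ => Ω) x y) := by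
    refine ⟨fun i => ?_, ?_⟩
    · refine Fin.lastCases ?_ (fun i => ?_) i
      · rw [Fin.snoc_last]
        exact hy
      · rw [Fin.snoc_castSucc]
        exact hx.1 i
    · obtain ⟨i, hi⟩ := hx.2
      exact ⟨Fin.castSucc i, by rw [Fin.snoc_castSucc]; exact hi⟩
  obtain ⟨i, hi⟩ := hF.2 _ h2
  revert hi
  refine Fin.lastCases (fun hi => ?_) (fun i hi => ?_) i
  · rw [hy0, map_zero] at hi
    exact absurd hi zero_ne_one
  · refine ⟨i, ?_⟩
    rw [hFG, eval_rename] at hi
    have h3 : ((Fin.snoc (α := fun _ => Ω) x y : Fin (n + 2) → Ω) ∘ Fin.castSucc) = x := by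
      funext j
      simp [Fin.snoc_castSucc]
    rwa [h3] at hi

end good

end Pool.Agent.Q15.DYN
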