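import Pool.Agent.Q15.DYN.Tri2
import Pool.Agent.H951R3.PB.Main

/-! Triangular endomorphisms with few places of bad reduction: the fibres. -/

set_option autoImplicit false

namespace Pool.Agent.Q15.DYN

open MvPolynomial NumberField

universe u

/-- good reduction at a place, after multiplication by a constant -/
def GoodAtPlace {K : Type u} [Field K] {ι : Type} (v : AbsoluteValue K ℝ)
    (F : ι → MvPolynomial ι K) : Prop :=
  ∃ w : AbsoluteValue (AlgebraicClosure K) ℝ,
    (∀ x : K, w (algebraMap K (AlgebraicClosure K) x) = v x) ∧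
    ∃ c : AlgebraicClosure K, c ≠ 0 ∧
      GoodV w fun i => C c * (F i).map (algebraMap K (AlgebraicClosure K))

/-- no common zero over the algebraic closure -/
def MorC {K : Type u} [Field K] {ι : Type} (F : ι → MvPolynomial ι K) : Prop :=
  ∀ x : ι → AlgebraicClosure K, (∀ i, aeval x (F i) = 0) → x = 0

section scale

variable {Ω : Type*} [Field Ω] {ι : Type*}

lemma evv_C (c : Ω) (F : ι → MvPolynomial ι Ω) (x : ι → Ω) :
    evv (fun i => C c * F i) x = c • evv F x := by
  funext i
  show eval x (C c * F i) = c * eval x (F i)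
  rw [map_mul, eval_C]

lemma evv_C_iter {d : ℕ} {F : ι → MvPolynomial ι Ω} (hF : ∀ i, (F i).IsHomogeneous d) {c : Ω}
    (hc : c ≠ 0) (p : ℕ) :
    ∃ b : Ω, b ≠ 0 ∧ ∀ x, (evv fun i => C c * F i)^[p] x = b • (evv F)^[p] x := by
  induction p with
  | zero => exact ⟨1, one_ne_zero, fun x => by simp⟩
  | succ p ih =>
    obtain ⟨b, hb, h⟩ := ih
    refine ⟨c * b ^ d, mul_ne_zero hc (pow_ne_zero _ hb), fun x => ?_⟩
    rw [Function.iterate_succ_apply', Function.iterate_succ_apply', h, evv_C, evv_smul hF,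
      smul_smul]

lemma C_hom {d : ℕ} {F : ι → MvPolynomial ι Ω} (hF : ∀ i, (F i).IsHomogeneous d) (c : Ω) (i : ι) :
    (C c * F i).IsHomogeneous d := by
  have h := (isHomogeneous_C ι c).mul (hF i)
  simpa using h

end scale

section map

variable {K L : Type*} [Field K] [Field L] {ι : Type*}

lemma evv_map (φ : K →+* L) (F : ι → MvPolynomial ι K) (x : ι → K) :
    evv (fun i => (F i).map φ) (fun i => φ (x i)) = fun i => φ (evv F x i) := by
  funext i
  show eval (fun i => φ (x i)) ((F i).map φ) = φ (eval x (F i))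
  rw [eval_map]
  have h := eval₂_comp_left φ (RingHom.id K) x (F i)
  rw [RingHom.comp_id] at h
  exact h.symm

lemma evv_map_iter (φ : K →+* L) (F : ι → MvPolynomial ι K) (p : ℕ) (x : ι → K) :
    (evv fun i => (F i).map φ)^[p] (fun i => φ (x i)) = fun i => φ ((evv F)^[p] x i) := by
  induction p with
  | zero => rfl
  | succ p ih => rw [Function.iterate_succ_apply', Function.iterate_succ_apply', ih, evv_map]

end map

section pot

variable {K : Type u} [Field K] {n : ℕ}

lemma uv_scale {Ω : Type*} [Field Ω] (w : AbsoluteValue Ω ℝ) {x : Fin (n + 1) → Ω} (hx : x ≠ 0) :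
    ∃ z : Ω, z ≠ 0 ∧ UV w (z • x) := by
  obtain ⟨i, -, hi⟩ := Finset.exists_max_image Finset.univ (fun i => w (x i))
    ⟨0, Finset.mem_univ _⟩
  have h0 : x i ≠ 0 := by
    intro h
    apply hx
    funext j
    have h1 := hi j (Finset.mem_univ _)
    simp only [h, map_zero] at h1
    exact w.eq_zero.1 (le_antisymm h1 (w.nonneg _))
  have h1 : 0 < w (x i) := w.pos h0
  refine ⟨(x i)⁻¹, inv_ne_zero h0, fun j => ?_, i, ?_⟩
  · rw [Pi.smul_apply, smul_eq_mul, map_mul, map_inv₀, inv_mul_le_iff₀ h1, mul_one]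
    exact hi j (Finset.mem_univ _)
  · rw [Pi.smul_apply, smul_eq_mul, inv_mul_cancel₀ h0, map_one]

/-- the map on a periodic fibre has potentially good reduction -/
theorem fib_pot {F : Fin (n + 2) → MvPolynomial (Fin (n + 2)) K}
    {G : Fin (n + 1) → MvPolynomial (Fin (n + 1)) K}
    (hFG : ∀ i : Fin (n + 1), F (Fin.castSucc i) = rename Fin.castSucc (G i))
    {d p : ℕ} (hF : ∀ i, (F i).IsHomogeneous d) (hG : ∀ i, (G i).IsHomogeneous d)
    {v : AbsoluteValue K ℝ} (hv : GoodAtPlace v F)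
    (hna : ∀ w : AbsoluteValue (AlgebraicClosure K) ℝ,
      (∀ x : K, w (algebraMap K (AlgebraicClosure K) x) = v x) → IsNonarchimedean w)
    {x1 : Fin (n + 1) → K} (hx0 : x1 ≠ 0) {c : K} (hx : (evv G)^[p] x1 = c • x1) :
    Pool.Agent.H951R3.PB.PotGood v (d ^ p) (fib F x1 c d p) := by
  obtain ⟨w, hw, c0, hc0, hgood⟩ := hv
  have hwn := hna w hw
  set φ := algebraMap K (AlgebraicClosure K) with hφ
  set F1 : Fin (n + 2) → MvPolynomial (Fin (n + 2)) (AlgebraicClosure K) :=
    fun i => (F i).map φ with hF1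
  set G1 : Fin (n + 1) → MvPolynomial (Fin (n + 1)) (AlgebraicClosure K) :=
    fun i => (G i).map φ with hG1
  have hF1h : ∀ i, (F1 i).IsHomogeneous d := fun i => (hF i).map φ
  have hG1h : ∀ i, (G1 i).IsHomogeneous d := fun i => (hG i).map φ
  have hFG1 : ∀ i : Fin (n + 1), F1 (Fin.castSucc i) = rename Fin.castSucc (G1 i) := by
    intro i
    show (F (Fin.castSucc i)).map φ = _
    rw [hFG, map_rename]
  have hFG2 : ∀ i : Fin (n + 1), (fun i => C c0 * F1 i) (Fin.castSucc i) =
      rename Fin.castSucc ((fun i => C c0 * G1 i) i) := by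
    intro i
    show C c0 * F1 (Fin.castSucc i) = rename Fin.castSucc (C c0 * G1 i)
    rw [hFG1, map_mul, rename_C]
  have hxφ : (fun i => φ (x1 i)) ≠ 0 := by
    intro h
    apply hx0
    funext i
    exact (map_eq_zero φ).1 (congrFun h i)
  obtain ⟨z, hz, huv⟩ := uv_scale w hxφ
  obtain ⟨b, hb, hbG⟩ := evv_C_iter hG1h hc0 p
  obtain ⟨b', hb', hbF⟩ := evv_C_iter hF1h hc0 p
  have hper : (evv fun i => C c0 * G1 i)^[p] (z • fun i => φ (x1 i)) =
      (b * z ^ d ^ p * φ c * z⁻¹) • (z • fun i => φ (x1 i)) := by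
    rw [hbG, iter_smul (evv_smul hG1h), evv_map_iter, hx, smul_smul, smul_smul]
    funext i
    simp only [Pi.smul_apply, smul_eq_mul, map_mul]
    field_simp
  have hg := fib_good hwn hFG2 hgood huv (fun i => C_hom hG1h c0 i) hper
  refine ⟨w, hw, fib (fun i => C c0 * F1 i) (z • fun i => φ (x1 i))
    (b * z ^ d ^ p * φ c * z⁻¹) d p, fib_hom (fun i => C_hom hF1h c0 i), ?_, !![z, 0; 0, 1], b',
    ?_, hb', ?_⟩
  · exact ⟨hg.1, fun x h1 h2 => hg.2 x ⟨h1, h2⟩⟩
  · simpa [Matrix.det_fin_two] using hz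
  · intro u
    have hA : ∀ u : Fin 2 → AlgebraicClosure K, io (z • fun i => φ (x1 i)) u =
        io (fun i => φ (x1 i)) ((!![z, 0; 0, 1] : Matrix (Fin 2) (Fin 2) _).mulVec u) := by
      intro u
      funext i
      refine Fin.lastCases ?_ (fun i => ?_) i
      · rw [io_last, io_last]
        simp [Matrix.mulVec, dotProduct, Fin.sum_univ_two]
      · rw [io_cs, io_cs]
        simp [Matrix.mulVec, dotProduct, Fin.sum_univ_two]
        ring
    have e1 := fib_spec (F := fun i => C c0 * F1 i) (G := fun i => C c0 * G1 i) hFG2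
      (fun i => C_hom hG1h c0 i) hper u
    have hper2 : (evv G1)^[p] (fun i => φ (x1 i)) = φ c • fun i => φ (x1 i) := by
      rw [evv_map_iter, hx]
      funext i
      simp only [Pi.smul_apply, smul_eq_mul, map_mul]
    have e2 := fib_spec hFG1 hG1h hper2 ((!![z, 0; 0, 1] : Matrix (Fin 2) (Fin 2) _).mulVec u)
    rw [hbF, hA u, e2, ← io_smul, hA] at e1
    have e3 := io_inj hxφ e1
    have e4 : Pool.Agent.H951R3.PB.fL K (fib F x1 c d p) =
        fib F1 (fun i => φ (x1 i)) (φ c) d p := by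
      funext i
      exact fib_map φ x1 c d p i
    rw [e4]
    exact e3.symm

end pot

end Pool.Agent.Q15.DYN
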