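import Pool.Agent.Q15.DYN.Tri3

/-! Triangular endomorphisms with few places of bad reduction: the induction step. -/

set_option autoImplicit false

namespace Pool.Agent.Q15.DYN

open MvPolynomial NumberField

universe u

section fibre

variable {K : Type u} [Field K] {n : ℕ}

/-- the number of the points of a fibre with given image -/
lemma card_fibre {D : ℕ} {P : MvPolynomial (Fin (n + 2)) K} (hP : P.IsHomogeneous D) (hD : 1 ≤ D)
    (hlast : eval (Fin.snoc (α := fun _ => K) (0 : Fin (n + 1) → K) 1) P ≠ 0)
    (x : Fin (n + 1) → K) (t : K) (S : Finset K)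
    (hS : ∀ y ∈ S, eval (Fin.snoc (α := fun _ => K) x y) P = t) : S.card ≤ D + 1 := by
  classical
  set s : Polynomial K := aeval (Fin.snoc (α := fun _ => Polynomial K)
    (fun i => Polynomial.C (x i) * Polynomial.X) 1) P - Polynomial.C t * Polynomial.X ^ D with hs
  have hev : ∀ (g : Fin (n + 2) → Polynomial K) (z : K), (aeval g P).eval z =
      eval (fun i => (g i).eval z) P := by
    intro g z
    have : ∀ P : MvPolynomial (Fin (n + 2)) K, (aeval g P).eval z =
        eval (fun i => (g i).eval z) P := by
      intro P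
      induction P using MvPolynomial.induction_on with
      | C a => simp
      | add p q hp hq => rw [map_add, Polynomial.eval_add, hp, hq, map_add]
      | mul_X p i hp => rw [map_mul, Polynomial.eval_mul, hp, aeval_X, map_mul, eval_X]
    exact this P
  have hsz : ∀ z : K, s.eval z = eval (Fin.snoc (α := fun _ => K) (z • x) 1) P - t * z ^ D := by
    intro z
    rw [hs, Polynomial.eval_sub, hev, Polynomial.eval_mul, Polynomial.eval_C, Polynomial.eval_pow,
      Polynomial.eval_X]
    congr 2
    congr 1
    funext i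
    refine Fin.lastCases ?_ (fun i => ?_) i
    · rw [Fin.snoc_last, Fin.snoc_last, Polynomial.eval_one]
    · rw [Fin.snoc_castSucc, Fin.snoc_castSucc, Polynomial.eval_mul, Polynomial.eval_C,
        Polynomial.eval_X, Pi.smul_apply, smul_eq_mul, mul_comm]
  have hs0 : s ≠ 0 := by
    intro h
    have h1 := hsz 0
    rw [h, Polynomial.eval_zero, zero_smul, zero_pow (by omega), mul_zero, sub_zero] at h1
    exact hlast h1.symm
  have hdeg : s.natDegree ≤ D := by
    refine (Polynomial.natDegree_sub_le _ _).trans (max_le ?_ ?_)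
    · have h1 := aeval_natDegree_le (m := D) (n := 1) P hP.totalDegree_le
        (Fin.snoc (α := fun _ => Polynomial K) (fun i => Polynomial.C (x i) * Polynomial.X) 1) (by
        intro i
        refine Fin.lastCases ?_ (fun i => ?_) i
        · rw [Fin.snoc_last, Polynomial.natDegree_one]
          exact Nat.zero_le _
        · rw [Fin.snoc_castSucc]
          exact (Polynomial.natDegree_C_mul_le _ _).trans Polynomial.natDegree_X_le)
      rwa [mul_one] at h1
    · exact Polynomial.natDegree_C_mul_X_pow_le _ _
  have hsub : (S.erase 0).image (fun y => y⁻¹) ⊆ s.roots.toFinset := by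
    intro z hz
    obtain ⟨y, hy, rfl⟩ := Finset.mem_image.1 hz
    obtain ⟨hy0, hyS⟩ := Finset.mem_erase.1 hy
    rw [Multiset.mem_toFinset, Polynomial.mem_roots hs0]
    show s.eval y⁻¹ = 0
    rw [hsz]
    have h1 : (Fin.snoc (α := fun _ => K) (y⁻¹ • x) 1 : Fin (n + 2) → K) =
        y⁻¹ • (Fin.snoc x y : Fin (n + 2) → K) := by
      funext i
      refine Fin.lastCases ?_ (fun i => ?_) i
      · show _ = y⁻¹ * (Fin.snoc x y : Fin (n + 2) → K) (Fin.last _)
        rw [Fin.snoc_last, Fin.snoc_last, inv_mul_cancel₀ hy0]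
      · show _ = y⁻¹ * (Fin.snoc x y : Fin (n + 2) → K) i.castSucc
        rw [Fin.snoc_castSucc, Fin.snoc_castSucc]
        rfl
    rw [h1, eval_smul' hP, hS y hyS]
    ring
  have h1 : (S.erase 0).card ≤ D := by
    rw [← Finset.card_image_of_injective _ (inv_injective : Function.Injective (fun y : K => y⁻¹))]
    calc _ ≤ s.roots.toFinset.card := Finset.card_le_card hsub
      _ ≤ s.roots.card := Multiset.toFinset_card_le _
      _ ≤ s.natDegree := Polynomial.card_roots' _
      _ ≤ D := hdeg
  have h2 := Finset.pred_card_le_card_erase (s := S) (a := 0)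
  omega

end fibre

section step

variable {K : Type u} [Field K] {n : ℕ}

/-- the counting argument: `B` bounds the points of the base and `E` the points of the periodic
fibres -/
theorem step_bound {F : Fin (n + 2) → MvPolynomial (Fin (n + 2)) K}
    {G : Fin (n + 1) → MvPolynomial (Fin (n + 1)) K}
    (hFG : ∀ i : Fin (n + 1), F (Fin.castSucc i) = rename Fin.castSucc (G i))
    {d : ℕ} (hd : 1 ≤ d) (hF : ∀ i, (F i).IsHomogeneous d) (hG : ∀ i, (G i).IsHomogeneous d)
    (hFn : ∀ x : Fin (n + 2) → K, x ≠ 0 → evv F x ≠ 0)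
    (hGn : ∀ x : Fin (n + 1) → K, x ≠ 0 → evv G x ≠ 0) (B E : ℕ)
    (hB : ∀ Y : Finset (Fin (n + 1) → K), (∀ x ∈ Y, x ≠ 0) →
      (∀ x ∈ Y, ∀ y ∈ Y, ∀ c : K, x = c • y → x = y) → (∀ x ∈ Y, Pre K (evv G) x) → Y.card ≤ B)
    (hE : ∀ p : ℕ, 1 ≤ p → p ≤ B → ∀ (x1 : Fin (n + 1) → K) (c : K), x1 ≠ 0 → c ≠ 0 →
      (evv G)^[p] x1 = c • x1 →
      ∀ Z : Finset (Fin 2 → K), (∀ x ∈ Z, x ≠ 0) →
      (∀ x ∈ Z, ∀ y ∈ Z, ∀ c : K, x = c • y → x = y) →
      (∀ x ∈ Z, Pre K (evv (fib F x1 c d p)) x) → Z.card ≤ E)
    (X : Finset (Fin (n + 2) → K)) (hX0 : ∀ x ∈ X, x ≠ 0)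
    (hXc : ∀ x ∈ X, ∀ y ∈ X, ∀ c : K, x = c • y → x = y) (hXp : ∀ x ∈ X, Pre K (evv F) x) :
    X.card ≤ 1 + B * (E * (d ^ B + 1)) := by
  classical
  -- the first coordinates
  set ini : (Fin (n + 2) → K) → (Fin (n + 1) → K) := fun x i => x (Fin.castSucc i) with hini
  have hini_s : ∀ (c : K) x, ini (c • x) = c • ini x := fun c x => rfl
  have hini_it : ∀ (p : ℕ) x, ini ((evv F)^[p] x) = (evv G)^[p] (ini x) := fun p x =>
    init_iter hFG p x
  have hini_pre : ∀ x, Pre K (evv F) x → ini x ≠ 0 → Pre K (evv G) (ini x) := by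
    intro x hx h0
    obtain ⟨m, l, hml, c, hc, h⟩ := of_pre hx
    refine pre_of (evv_smul hG) hml hc ?_
    rw [← hini_it, h, hini_s, hini_it]
  -- the representatives of the base points
  obtain ⟨Y, hY0, hYc, hYp, hYall⟩ : ∃ Y : Finset (Fin (n + 1) → K), (∀ x ∈ Y, x ≠ 0) ∧
      (∀ x ∈ Y, ∀ y ∈ Y, ∀ c : K, x = c • y → x = y) ∧ (∀ x ∈ Y, Pre K (evv G) x) ∧
      ∀ x, x ≠ 0 → Pre K (evv G) x → ∃ y ∈ Y, ∃ c : K, c ≠ 0 ∧ x = c • y := by
    have hex : ∃ m : ℕ, ∃ Y : Finset (Fin (n + 1) → K), (∀ x ∈ Y, x ≠ 0) ∧
      (∀ x ∈ Y, ∀ y ∈ Y, ∀ c : K, x = c • y → x = y) ∧ (∀ x ∈ Y, Pre K (evv G) x) ∧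
      B - Y.card = m := ⟨_, ∅, by simp, by simp, by simp, rfl⟩
    obtain ⟨Y, h1, h2, h3, h4⟩ := Nat.find_spec hex
    refine ⟨Y, h1, h2, h3, fun x hx hp => ?_⟩
    by_contra hcon
    push Not at hcon
    have hxY : x ∉ Y := fun h => hcon x h 1 one_ne_zero (one_smul K x).symm
    have h5 : (∀ y ∈ insert x Y, y ≠ 0) ∧
        (∀ y ∈ insert x Y, ∀ z ∈ insert x Y, ∀ c : K, y = c • z → y = z) ∧
        (∀ y ∈ insert x Y, Pre K (evv G) y) := by
      refine ⟨?_, ?_, ?_⟩
      · intro y hy
        rcases Finset.mem_insert.1 hy with rfl | hy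
        · exact hx
        · exact h1 y hy
      · intro y hy z hz c hc
        rcases Finset.mem_insert.1 hy with h6 | hy <;> rcases Finset.mem_insert.1 hz with h7 | hz
        · rw [h6, h7]
        · exfalso
          rw [h6] at hc
          refine hcon z hz c ?_ hc
          rintro rfl
          exact hx (by rw [hc, zero_smul])
        · exfalso
          rw [h7] at hc
          have hc0 : c ≠ 0 := by
            rintro rfl
            exact h1 y hy (by rw [hc, zero_smul])
          refine hcon y hy c⁻¹ (inv_ne_zero hc0) ?_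
          rw [hc, smul_smul, inv_mul_cancel₀ hc0, one_smul]
        · exact h2 y hy z hz c hc
      · intro y hy
        rcases Finset.mem_insert.1 hy with rfl | hy
        · exact hp
        · exact h3 y hy
    have h6 := hB _ h5.1 h5.2.1 h5.2.2
    rw [Finset.card_insert_of_notMem hxY] at h6
    have h7 := Nat.find_min hex (m := B - (insert x Y).card) (by
      rw [Finset.card_insert_of_notMem hxY, ← h4]
      omega)
    exact h7 ⟨insert x Y, h5.1, h5.2.1, h5.2.2, rfl⟩
  have hYB : Y.card ≤ B := hB Y hY0 hYc hYp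
  -- the period and the tail of a base point
  have hper : ∀ x0 ∈ Y, ∃ m p : ℕ, 1 ≤ p ∧ m + p ≤ B ∧ ∃ c : K, c ≠ 0 ∧
      (evv G)^[p] ((evv G)^[m] x0) = c • (evv G)^[m] x0 := by
    intro x0 hx0
    have hne : ∀ j, (evv G)^[j] x0 ≠ 0 := fun j => iter_ne hGn j x0 (hY0 x0 hx0)
    have hpre : ∀ j, Pre K (evv G) ((evv G)^[j] x0) := by
      intro j
      obtain ⟨m, l, hml, c, hc, h⟩ := of_pre (hYp x0 hx0)
      refine pre_of (evv_smul hG) hml (pow_ne_zero (d ^ j) hc) ?_
      rw [← Function.iterate_add_apply, ← Function.iterate_add_apply, Nat.add_comm l j,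
        Nat.add_comm m j, Function.iterate_add_apply, h, iter_smul (evv_smul hG),
        ← Function.iterate_add_apply]
    choose r hr c hc hrc using fun j => hYall _ (hne j) (hpre j)
    obtain ⟨a, ha, b, hb, hab, he⟩ := Finset.exists_ne_map_eq_of_card_lt_of_maps_to
      (s := Finset.range (B + 1)) (t := Y) (by rw [Finset.card_range]; omega)
      (f := r) (fun j _ => hr j)
    have key : ∀ a b : ℕ, a < b → b ≤ B → r a = r b → ∃ m p : ℕ, 1 ≤ p ∧ m + p ≤ B ∧ ∃ c : K,
        c ≠ 0 ∧ (evv G)^[p] ((evv G)^[m] x0) = c • (evv G)^[m] x0 := by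
      intro a b hlt hbB he
      refine ⟨a, b - a, by omega, by omega, c b * (c a)⁻¹,
        mul_ne_zero (hc b) (inv_ne_zero (hc a)), ?_⟩
      rw [← Function.iterate_add_apply, Nat.sub_add_cancel hlt.le, hrc b, ← he, hrc a, smul_smul,
        mul_assoc, inv_mul_cancel₀ (hc a), mul_one]
    have ha' := Finset.mem_range.1 ha
    have hb' := Finset.mem_range.1 hb
    rcases lt_or_gt_of_ne hab with hlt | hlt
    · exact key a b hlt (by omega) he
    · exact key b a hlt (by omega) he.symm
  -- the last coordinate vector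
  have hlast : ∀ m : ℕ, eval (Fin.snoc (α := fun _ => K) (0 : Fin (n + 1) → K) 1)
      (It F m (Fin.last _)) ≠ 0 := by
    intro m h0
    have he : (Fin.snoc (α := fun _ => K) (0 : Fin (n + 1) → K) 1 : Fin (n + 2) → K) ≠ 0 := by
      intro h
      have h1 := congrFun h (Fin.last _)
      rw [Fin.snoc_last] at h1
      exact one_ne_zero h1
    apply iter_ne hFn m _ he
    funext i
    refine Fin.lastCases ?_ (fun i => ?_) i
    · rw [← eval_It, h0]
      rfl
    · have h1 := congrFun (hini_it m (Fin.snoc (α := fun _ => K) (0 : Fin (n + 1) → K) 1)) i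
      have h2 : ini (Fin.snoc (α := fun _ => K) (0 : Fin (n + 1) → K) 1) =
          (0 : K) • (0 : Fin (n + 1) → K) := by
        funext j
        show (Fin.snoc (α := fun _ => K) (0 : Fin (n + 1) → K) 1 : Fin (n + 2) → K) j.castSucc = _
        rw [Fin.snoc_castSucc]
        simp
      rw [h2, iter_smul (evv_smul hG), zero_pow (pow_ne_zero _ (by omega)), zero_smul] at h1
      exact h1
  -- the points of the fibre over a base point
  have hfib : ∀ x0 ∈ Y, ∀ S : Finset K,
      (∀ y ∈ S, Pre K (evv F) (Fin.snoc (α := fun _ => K) x0 y)) →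
      S.card ≤ E * (d ^ B + 1) := by
    intro x0 hx0 S hS
    obtain ⟨m, p, hp, hmp, c, hc, hcp⟩ := hper x0 hx0
    set x1 := (evv G)^[m] x0 with hx1
    have hx1n : x1 ≠ 0 := iter_ne hGn m x0 (hY0 x0 hx0)
    have hini0 : ∀ y : K, ini (Fin.snoc (α := fun _ => K) x0 y) = x0 := by
      intro y
      funext j
      show (Fin.snoc (α := fun _ => K) x0 y : Fin (n + 2) → K) j.castSucc = _
      rw [Fin.snoc_castSucc]
    have him : ∀ y : K, (evv F)^[m] (Fin.snoc (α := fun _ => K) x0 y) =
        io x1 ![1, eval (Fin.snoc (α := fun _ => K) x0 y) (It F m (Fin.last _))] := by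
      intro y
      funext i
      refine Fin.lastCases ?_ (fun i => ?_) i
      · rw [io_last, ← eval_It]
        rfl
      · have h1 := congrFun (hini_it m (Fin.snoc (α := fun _ => K) x0 y)) i
        rw [hini0] at h1
        rw [io_cs]
        simp only [Matrix.cons_val_zero, one_mul]
        exact h1
    set τ : K → K := fun y => eval (Fin.snoc (α := fun _ => K) x0 y) (It F m (Fin.last _)) with hτ
    -- the images
    have hZ : (S.image τ).card ≤ E := by
      have h1 := hE p hp (by omega) x1 c hx1n hc hcp ((S.image τ).image fun t => ![1, t]) ?_ ?_ ?_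
      · rwa [Finset.card_image_of_injective] at h1
        intro a b hab
        exact congrFun hab 1
      · intro x hx
        obtain ⟨t, -, rfl⟩ := Finset.mem_image.1 hx
        intro h0
        exact one_ne_zero (congrFun h0 0)
      · intro x hx y hy a ha
        obtain ⟨t, -, rfl⟩ := Finset.mem_image.1 hx
        obtain ⟨t', -, rfl⟩ := Finset.mem_image.1 hy
        have h1 : (1 : K) = a * 1 := congrFun ha 0
        rw [mul_one] at h1
        rw [ha, ← h1, one_smul]
      · intro x hx
        obtain ⟨t, ht, rfl⟩ := Finset.mem_image.1 hx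
        obtain ⟨y, hy, rfl⟩ := Finset.mem_image.1 ht
        -- preperiodic for the map of the fibre
        have hpre : Pre K (evv F) (io x1 ![1, τ y]) := by
          rw [← him y]
          obtain ⟨a, l, hal, b, hb, h⟩ := of_pre (hS y hy)
          refine pre_of (evv_smul hF) hal (pow_ne_zero (d ^ m) hb) ?_
          rw [← Function.iterate_add_apply, ← Function.iterate_add_apply, Nat.add_comm l m,
            Nat.add_comm a m, Function.iterate_add_apply, h, iter_smul (evv_smul hF),
            ← Function.iterate_add_apply]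
        have hfs : ∀ (c' : K) (x : Fin 2 → K), evv (fib F x1 c d p) (c' • x) =
            c' ^ d ^ p • evv (fib F x1 c d p) x := evv_smul (fib_hom hF)
        -- pigeonhole along multiples of `p`
        have hfin : (Set.range fun j : ℕ => Submodule.span K {(evv F)^[p * j]
            (io x1 ![1, τ y])}).Finite := by
          refine Set.Finite.subset (show (Set.range fun j : ℕ =>
            Submodule.span K {(evv F)^[j] (io x1 ![1, τ y])}).Finite from hpre) ?_
          rintro _ ⟨j, rfl⟩
          exact ⟨p * j, rfl⟩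
        have hninj : ¬ Function.Injective fun j : ℕ => Submodule.span K {(evv F)^[p * j]
            (io x1 ![1, τ y])} := fun hi => Set.infinite_range_of_injective hi hfin
        rw [Function.not_injective_iff] at hninj
        obtain ⟨a, b, hab, hne⟩ := hninj
        have key : ∀ a b : ℕ, a < b → Submodule.span K {(evv F)^[p * a] (io x1 ![1, τ y])} =
            Submodule.span K {(evv F)^[p * b] (io x1 ![1, τ y])} →
            Pre K (evv (fib F x1 c d p)) ![1, τ y] := by
          intro a b hlt he
          rw [Submodule.span_singleton_eq_span_singleton] at he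
          obtain ⟨z, hz⟩ := he
          have h1 : (z : K) • io x1 ((evv (fib F x1 c d p))^[a] ![1, τ y]) =
              io x1 ((evv (fib F x1 c d p))^[b] ![1, τ y]) := by
            rw [← fib_iter hFG hG hcp, ← fib_iter hFG hG hcp]
            exact hz
          rw [← io_smul] at h1
          exact pre_of hfs hlt z.ne_zero (io_inj hx1n h1).symm
        rcases lt_or_gt_of_ne hne with hlt | hlt
        · exact key a b hlt hab
        · exact key b a hlt hab.symm
    calc S.card ≤ (d ^ B + 1) * (S.image τ).card := by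
          refine Finset.card_le_mul_card_image S (d ^ B + 1) fun t ht => ?_
          refine (card_fibre (It_hom hF m (Fin.last _)) (Nat.one_le_pow _ _ (by omega)) (hlast m)
            x0 t _ ?_).trans ?_
          · intro y hy
            exact (Finset.mem_filter.1 hy).2
          · exact Nat.add_le_add_right (Nat.pow_le_pow_right (by omega) (by omega)) 1
      _ ≤ (d ^ B + 1) * E := Nat.mul_le_mul_left _ hZ
      _ = E * (d ^ B + 1) := Nat.mul_comm _ _
  -- the sum
  have hX1 : (X.filter fun x => ini x = 0).card ≤ 1 := by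
    rw [Finset.card_le_one]
    intro x hx y hy
    obtain ⟨hx1, hx2⟩ := Finset.mem_filter.1 hx
    obtain ⟨hy1, hy2⟩ := Finset.mem_filter.1 hy
    have hyl : y (Fin.last _) ≠ 0 := by
      intro h0
      apply hX0 y hy1
      funext i
      refine Fin.lastCases ?_ (fun i => ?_) i
      · exact h0
      · exact congrFun hy2 i
    apply hXc x hx1 y hy1 (x (Fin.last _) / y (Fin.last _))
    funext i
    refine Fin.lastCases ?_ (fun i => ?_) i
    · rw [Pi.smul_apply, smul_eq_mul, div_mul_cancel₀ _ hyl]
    · have h1 : x i.castSucc = 0 := congrFun hx2 i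
      have h2 : y i.castSucc = 0 := congrFun hy2 i
      rw [Pi.smul_apply, smul_eq_mul, h1, h2, mul_zero]
  have hX2 : (X.filter fun x => ¬ ini x = 0).card ≤ B * (E * (d ^ B + 1)) := by
    set X' := X.filter fun x => ¬ ini x = 0 with hX'
    have hex : ∀ x ∈ X', ∃ y ∈ Y, ∃ c : K, c ≠ 0 ∧ ini x = c • y := by
      intro x hx
      obtain ⟨hx1, hx2⟩ := Finset.mem_filter.1 hx
      exact hYall _ hx2 (hini_pre x (hXp x hx1) hx2)
    choose! r hr c hc hrc using hex
    calc X'.card ≤ (E * (d ^ B + 1)) * (X'.image r).card := by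
          refine Finset.card_le_mul_card_image X' (E * (d ^ B + 1)) fun x0 hx0 => ?_
          obtain ⟨x', hx', rfl⟩ := Finset.mem_image.1 hx0
          set X'' := X'.filter fun x => r x = r x' with hX''
          have hinj : Set.InjOn (fun x : Fin (n + 2) → K => (c x)⁻¹ * x (Fin.last _)) X'' := by
            intro x hx y hy hxy
            obtain ⟨hx1, hx2⟩ := Finset.mem_filter.1 (Finset.mem_coe.1 hx)
            obtain ⟨hy1, hy2⟩ := Finset.mem_filter.1 (Finset.mem_coe.1 hy)
            have hcx := hc x hx1
            have hcy := hc y hy1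
            apply hXc x (Finset.mem_filter.1 hx1).1 y (Finset.mem_filter.1 hy1).1
              (c x * (c y)⁻¹)
            funext i
            refine Fin.lastCases ?_ (fun i => ?_) i
            · have h1 : (c x)⁻¹ * x (Fin.last _) = (c y)⁻¹ * y (Fin.last _) := hxy
              rw [Pi.smul_apply, smul_eq_mul, mul_assoc, ← h1, mul_inv_cancel_left₀ hcx]
            · have h1 : x i.castSucc = c x * r x' i := by
                have := congrFun (hrc x hx1) i
                rw [hx2] at this
                exact this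
              have h2 : y i.castSucc = c y * r x' i := by
                have := congrFun (hrc y hy1) i
                rw [hy2] at this
                exact this
              rw [Pi.smul_apply, smul_eq_mul, h1, h2, mul_assoc, inv_mul_cancel_left₀ hcy]
          rw [← Finset.card_image_of_injOn hinj]
          apply hfib (r x') (hr x' hx')
          intro y hy
          obtain ⟨x, hx, rfl⟩ := Finset.mem_image.1 hy
          obtain ⟨hx1, hx2⟩ := Finset.mem_filter.1 hx
          have hcx := hc x hx1
          have h1 : (Fin.snoc (α := fun _ => K) (r x') ((c x)⁻¹ * x (Fin.last _)) :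
              Fin (n + 2) → K) = (c x)⁻¹ • x := by
            funext i
            refine Fin.lastCases ?_ (fun i => ?_) i
            · rw [Fin.snoc_last]
              rfl
            · have h1 : x i.castSucc = c x * r x' i := by
                have := congrFun (hrc x hx1) i
                rw [hx2] at this
                exact this
              rw [Fin.snoc_castSucc, Pi.smul_apply, smul_eq_mul, h1, inv_mul_cancel_left₀ hcx]
          rw [h1]
          obtain ⟨a, l, hal, b, hb, h⟩ := of_pre (hXp x (Finset.mem_filter.1 hx1).1)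
          have hz : (c x)⁻¹ ≠ 0 := inv_ne_zero hcx
          refine pre_of (evv_smul hF) (c := (c x)⁻¹ ^ d ^ l * b * ((c x)⁻¹ ^ d ^ a)⁻¹) hal
            (mul_ne_zero (mul_ne_zero (pow_ne_zero _ hz) hb) (inv_ne_zero (pow_ne_zero _ hz))) ?_
          rw [iter_smul (evv_smul hF), iter_smul (evv_smul hF), h, smul_smul, smul_smul,
            mul_assoc, inv_mul_cancel₀ (pow_ne_zero _ hz), mul_one]
      _ ≤ (E * (d ^ B + 1)) * B := by
          apply Nat.mul_le_mul_left
          refine (Finset.card_le_card ?_).trans hYB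
          intro y hy
          obtain ⟨x, hx, rfl⟩ := Finset.mem_image.1 hy
          exact hr x hx
      _ = B * (E * (d ^ B + 1)) := Nat.mul_comm _ _
  have h := Finset.card_filter_add_card_filter_not (s := X) (fun x => ini x = 0)
  omega

end step

end Pool.Agent.Q15.DYN
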