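import Pool.Agent.Q15.DYN.Tri4

/-! Triangular endomorphisms with few places of bad reduction: the induction. -/

set_option autoImplicit false

namespace Pool.Agent.Q15.DYN

open MvPolynomial NumberField

universe u

/-- the `i`-th form contains only the variables `x_j` with `j ≤ max i 1` -/
def TriC {K : Type u} [Field K] {n : ℕ} (F : Fin (n + 2) → MvPolynomial (Fin (n + 2)) K) : Prop :=
  ∀ i : Fin (n + 2), ∀ j ∈ (F i).vars, (j : ℕ) ≤ max (i : ℕ) 1

section

variable {K : Type u} [Field K] {n : ℕ}

/-- a form without the last variable -/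
lemma exists_base {F : Fin (n + 3) → MvPolynomial (Fin (n + 3)) K} (hF : TriC F) :
    ∃ G : Fin (n + 2) → MvPolynomial (Fin (n + 2)) K,
      ∀ i, F (Fin.castSucc i) = rename Fin.castSucc (G i) := by
  have h : ∀ i : Fin (n + 2), ∃ g : MvPolynomial (Fin (n + 2)) K,
      rename Fin.castSucc g = F (Fin.castSucc i) := by
    intro i
    have h1 : ((F (Fin.castSucc i)).vars : Set (Fin (n + 3))) ⊆ Set.range
        (Fin.castSucc : Fin (n + 2) → Fin (n + 3)) := by
      intro j hj
      have h2 := hF (Fin.castSucc i) j hj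
      have h3 : (j : ℕ) < n + 2 := by
        have h4 : ((Fin.castSucc i : Fin (n + 3)) : ℕ) = i := rfl
        have h5 := i.2
        rw [h4] at h2
        have h6 : max (i : ℕ) 1 < n + 2 := max_lt h5 (by omega)
        omega
      exact ⟨⟨j, h3⟩, Fin.ext rfl⟩
    exact exists_rename_eq_of_vars_subset_range _ _ (Fin.castSucc_injective _) h1
  choose G hG using h
  exact ⟨G, fun i => (hG i).symm⟩

lemma base_hom {F : Fin (n + 2) → MvPolynomial (Fin (n + 2)) K}
    {G : Fin (n + 1) → MvPolynomial (Fin (n + 1)) K}
    (hFG : ∀ i : Fin (n + 1), F (Fin.castSucc i) = rename Fin.castSucc (G i)) {d : ℕ}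
    (hF : ∀ i, (F i).IsHomogeneous d) (i : Fin (n + 1)) : (G i).IsHomogeneous d := by
  have h := hF (Fin.castSucc i)
  rw [hFG] at h
  exact (IsHomogeneous.rename_isHomogeneous_iff (Fin.castSucc_injective _)).1 h

lemma base_tri {F : Fin (n + 3) → MvPolynomial (Fin (n + 3)) K}
    {G : Fin (n + 2) → MvPolynomial (Fin (n + 2)) K}
    (hFG : ∀ i : Fin (n + 2), F (Fin.castSucc i) = rename Fin.castSucc (G i)) (hF : TriC F) :
    TriC G := by
  classical
  intro i j hj
  have h := hF (Fin.castSucc i) (Fin.castSucc j) (by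
    rw [hFG]
    rw [mem_vars] at hj ⊢
    obtain ⟨m, hm, hjm⟩ := hj
    refine ⟨Finsupp.mapDomain Fin.castSucc m, ?_, ?_⟩
    · rw [mem_support_iff, coeff_rename_mapDomain _ (Fin.castSucc_injective _)]
      exact mem_support_iff.1 hm
    · rw [Finsupp.mem_support_iff, Finsupp.mapDomain_apply (Fin.castSucc_injective _)]
      exact Finsupp.mem_support_iff.1 hjm)
  exact h

lemma base_mor {F : Fin (n + 2) → MvPolynomial (Fin (n + 2)) K}
    {G : Fin (n + 1) → MvPolynomial (Fin (n + 1)) K}
    (hFG : ∀ i : Fin (n + 1), F (Fin.castSucc i) = rename Fin.castSucc (G i)) {d : ℕ} (hd : 1 ≤ d)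
    (hF : ∀ i, (F i).IsHomogeneous d) (hmor : MorC F) : MorC G := by
  classical
  intro x hx
  -- the form `F_last` does not vanish at the last coordinate vector
  have haev : ∀ (y : Fin (n + 2) → AlgebraicClosure K) i, aeval y (F i) = eval y ((F i).map (algebraMap K (AlgebraicClosure K))) := by
    intro y i
    rw [eval_map, aeval_def]
  have hG : ∀ i, (G i).IsHomogeneous d := base_hom hFG hF
  have he : eval (Fin.snoc (α := fun _ => AlgebraicClosure K) (0 : Fin (n + 1) → AlgebraicClosure K) 1)
      ((F (Fin.last _)).map (algebraMap K (AlgebraicClosure K))) ≠ 0 := by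
    intro h0
    have h1 := hmor (Fin.snoc (α := fun _ => AlgebraicClosure K) (0 : Fin (n + 1) → AlgebraicClosure K) 1) (by
      intro i
      refine Fin.lastCases ?_ (fun i => ?_) i
      · rw [haev]
        exact h0
      · rw [hFG, aeval_rename]
        have h2 : ((Fin.snoc (α := fun _ => AlgebraicClosure K) (0 : Fin (n + 1) → AlgebraicClosure K) 1 : Fin (n + 2) → AlgebraicClosure K) ∘
            Fin.castSucc) = (0 : AlgebraicClosure K) • (0 : Fin (n + 1) → AlgebraicClosure K) := by
          funext j
          simp [Fin.snoc_castSucc]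
        rw [h2, aeval_def, ← eval_map, eval_smul' ((hG i).map (algebraMap K (AlgebraicClosure K))), zero_pow (by omega), zero_mul])
    have h2 := congrFun h1 (Fin.last _)
    rw [Fin.snoc_last] at h2
    exact one_ne_zero h2
  obtain ⟨y, -, hy⟩ := exists_root_disc (w := (AbsoluteValue.trivial : AbsoluteValue (AlgebraicClosure K) ℝ)) (by
      intro a b
      by_cases ha : a = 0
      · subst ha
        rw [zero_add]
        exact le_max_right _ _
      · by_cases hab : a + b = 0
        · rw [hab, map_zero]
          exact le_max_of_le_left (AbsoluteValue.nonneg _ _)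
        · rw [AbsoluteValue.trivial_apply hab, AbsoluteValue.trivial_apply ha]
          exact le_max_left _ _) hd ((hF (Fin.last _)).map (algebraMap K (AlgebraicClosure K))) (by
      intro m
      by_cases h : coeff m ((F (Fin.last _)).map (algebraMap K (AlgebraicClosure K))) = 0
      · rw [h, map_zero]
        exact zero_le_one
      · rw [AbsoluteValue.trivial_apply h]) (x := x) (by
      intro i
      by_cases h : x i = 0
      · rw [h, map_zero]
        exact zero_le_one
      · rw [AbsoluteValue.trivial_apply h]) (by rw [AbsoluteValue.trivial_apply he])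
  have h1 := hmor (Fin.snoc (α := fun _ => AlgebraicClosure K) x y) (by
    intro i
    refine Fin.lastCases ?_ (fun i => ?_) i
    · rw [haev]
      exact hy
    · rw [hFG, aeval_rename]
      have h2 : ((Fin.snoc (α := fun _ => AlgebraicClosure K) x y : Fin (n + 2) → AlgebraicClosure K) ∘ Fin.castSucc) = x := by
        funext j
        simp [Fin.snoc_castSucc]
      rw [h2]
      exact hx i)
  funext i
  have h2 := congrFun h1 (Fin.castSucc i)
  rwa [Fin.snoc_castSucc] at h2

lemma evv_ne {ι : Type} {F : ι → MvPolynomial ι K} (hmor : MorC F) (x : ι → K) (hx : x ≠ 0) :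
    evv F x ≠ 0 := by
  intro h
  apply hx
  have h1 := hmor (fun i => algebraMap K (AlgebraicClosure K) (x i)) (by
    intro i
    have h2 := eval₂_comp_left (algebraMap K (AlgebraicClosure K)) (RingHom.id K) x (F i)
    have h3 : eval₂ (RingHom.id K) x (F i) = 0 := congrFun h i
    rw [h3, map_zero, RingHom.comp_id] at h2
    exact h2.symm)
  funext i
  exact (map_eq_zero (algebraMap K (AlgebraicClosure K))).1 (congrFun h1 i)

lemma base_goodAt {F : Fin (n + 2) → MvPolynomial (Fin (n + 2)) K}
    {G : Fin (n + 1) → MvPolynomial (Fin (n + 1)) K}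
    (hFG : ∀ i : Fin (n + 1), F (Fin.castSucc i) = rename Fin.castSucc (G i)) {d : ℕ} (hd : 1 ≤ d)
    (hF : ∀ i, (F i).IsHomogeneous d) {v : AbsoluteValue K ℝ} (hv : GoodAtPlace v F)
    (hna : ∀ w : AbsoluteValue (AlgebraicClosure K) ℝ,
      (∀ x : K, w (algebraMap K (AlgebraicClosure K) x) = v x) → IsNonarchimedean w) :
    GoodAtPlace v G := by
  obtain ⟨w, hw, c, hc, hgood⟩ := hv
  have hFG2 : ∀ i : Fin (n + 1), (fun i => C c * (F i).map (algebraMap K (AlgebraicClosure K)))
      (Fin.castSucc i) = rename Fin.castSucc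
      ((fun i => C c * (G i).map (algebraMap K (AlgebraicClosure K))) i) := by
    intro i
    show C c * (F (Fin.castSucc i)).map _ = rename Fin.castSucc (C c * (G i).map _)
    rw [hFG, map_mul, rename_C, map_rename]
  refine ⟨w, hw, c, hc, base_good (hna w hw) hd hFG2
    (C_hom (fun i => (hF i).map _) c) (C_hom (fun i => (base_hom hFG hF i).map _) c) hgood ?_⟩
  intro i m
  have h1 := hgood.1 (Fin.castSucc i) (Finsupp.mapDomain Fin.castSucc m)
  rw [hFG2, coeff_rename_mapDomain _ (Fin.castSucc_injective _)] at h1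
  exact h1

end

theorem tri_main (D s : ℕ) : ∀ (N d : ℕ), 2 ≤ d → ∃ B : ℕ,
    ∀ (K : Type u) [Field K] [NumberField K], Module.finrank ℚ K ≤ D →
    ∀ F : Fin (N + 2) → MvPolynomial (Fin (N + 2)) K, (∀ i, (F i).IsHomogeneous d) → MorC F →
      TriC F →
    ∀ T : Finset (FinitePlace K), T.card ≤ s → (∀ v, v ∉ T → GoodAtPlace v.val F) →
    ∀ X : Finset (Fin (N + 2) → K), (∀ x ∈ X, x ≠ 0) →
      (∀ x ∈ X, ∀ y ∈ X, ∀ c : K, x = c • y → x = y) → (∀ x ∈ X, Pre K (evv F) x) →
      X.card ≤ B := by
  intro N
  induction N with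
  | zero =>
    intro d hd
    obtain ⟨C, hC, H⟩ := Pool.Agent.H951R3.PB.main_pre.{u} d hd D
    refine ⟨⌈C * (s + 1 : ℝ) * Real.log (1 + (s + 1))⌉₊, ?_⟩
    intro K _ _ hK F hF hmor _ T hTs hT X hX0 hXc hXp
    have h1 := H K hK F hF hmor T ?_ (s + 1 : ℝ) (by
      have : (0 : ℝ) ≤ s := Nat.cast_nonneg s
      linarith) (Or.inl (by
      have : (T.card : ℝ) ≤ s := by exact_mod_cast hTs
      linarith)) X hX0 hXc (fun x hx => of_pre (hXp x hx))
    · exact_mod_cast h1.trans (Nat.le_ceil _)
    · intro v hv
      obtain ⟨w, hw, c, hc, hg⟩ := hT v hv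
      refine ⟨w, hw, fun i => MvPolynomial.C c * (F i).map (algebraMap K (AlgebraicClosure K)),
        C_hom (fun i => (hF i).map _) c, ⟨hg.1, fun x h1 h2 => hg.2 x ⟨h1, h2⟩⟩, 1, c, by simp,
        hc, fun x => ?_⟩
      rw [Matrix.one_mulVec, Matrix.one_mulVec]
      exact evv_C c _ x
  | succ N ih =>
    intro d hd
    obtain ⟨B, hB⟩ := ih d hd
    have hE : ∀ p : ℕ, ∃ C : ℝ, 0 < C ∧ (1 ≤ p → ∀ (K : Type u) [Field K] [NumberField K],
        Module.finrank ℚ K ≤ D →
        ∀ f : Fin 2 → MvPolynomial (Fin 2) K, (∀ i, (f i).IsHomogeneous (d ^ p)) → MorC f →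
        ∀ T : Finset (FinitePlace K),
          (∀ v, v ∉ T → Pool.Agent.H951R3.PB.PotGood v.val (d ^ p) f) → T.card ≤ s →
        ∀ X : Finset (Fin 2 → K), (∀ x ∈ X, x ≠ 0) →
          (∀ x ∈ X, ∀ y ∈ X, ∀ c : K, x = c • y → x = y) →
          (∀ x ∈ X, Pre K (evv f) x) → (X.card : ℝ) ≤ C) := by
      intro p
      by_cases hp : 1 ≤ p
      · obtain ⟨C, hC, H⟩ := Pool.Agent.H951R3.PB.main_pre.{u} (d ^ p)
          (hd.trans (Nat.le_self_pow (by omega) d)) D
        refine ⟨C * (s + 1 : ℝ) * Real.log (1 + (s + 1)), by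
          have : (0 : ℝ) ≤ s := Nat.cast_nonneg s
          have h2 : 0 < Real.log (1 + (s + 1)) := Real.log_pos (by linarith)
          positivity, ?_⟩
        intro _ K _ _ hK f hf hmor T hT hTs X hX0 hXc hXp
        exact H K hK f hf hmor T hT (s + 1 : ℝ) (by
          have : (0 : ℝ) ≤ s := Nat.cast_nonneg s
          linarith) (Or.inl (by
          have : (T.card : ℝ) ≤ s := by exact_mod_cast hTs
          linarith)) X hX0 hXc (fun x hx => of_pre (hXp x hx))
      · exact ⟨1, one_pos, fun h => absurd h hp⟩
    choose E hE0 hE using hE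
    set E' : ℕ := ∑ p ∈ Finset.range (B + 1), ⌈E p⌉₊ with hE'
    refine ⟨1 + B * (E' * (d ^ B + 1)), ?_⟩
    intro K _ _ hK F hF hmor htri T hTs hT X hX0 hXc hXp
    obtain ⟨G, hFG⟩ := exists_base htri
    have hG := base_hom hFG hF
    have hGm : MorC G := base_mor hFG (by omega) hF hmor
    have hna : ∀ v : FinitePlace K, ∀ w : AbsoluteValue (AlgebraicClosure K) ℝ,
        (∀ x : K, w (algebraMap K (AlgebraicClosure K) x) = v.val x) → IsNonarchimedean w :=
      fun v w hw => Pool.Agent.H951R3.PB.ext_na v w hw
    refine step_bound hFG (by omega) hF hG (evv_ne hmor) (evv_ne hGm) B E' ?_ ?_ X hX0 hXc hXp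
    · intro Y hY0 hYc hYp
      exact hB K hK G hG hGm (base_tri hFG htri) T hTs
        (fun v hv => base_goodAt hFG (by omega) hF (hT v hv) (hna v)) Y hY0 hYc hYp
    · intro p hp hpB x1 c hx1 hc hper Z hZ0 hZc hZp
      have h1 := hE p hp K hK (fib F x1 c d p) (fib_hom hF) ?_ T
        (fun v hv => fib_pot hFG hF hG (hT v hv) (hna v) hx1 hper) hTs Z hZ0 hZc hZp
      · have h2 : ⌈E p⌉₊ ≤ E' := Finset.single_le_sum (f := fun p => ⌈E p⌉₊)
          (fun _ _ => Nat.zero_le _) (Finset.mem_range.2 (by omega))
        have h3 : (Z.card : ℝ) ≤ (⌈E p⌉₊ : ℝ) := h1.trans (Nat.le_ceil _)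
        exact (Nat.cast_le.1 h3).trans h2
      · -- the map of the fibre is a morphism
        intro u hu
        by_contra hu0
        have hx1' : (fun i => algebraMap K (AlgebraicClosure K) (x1 i)) ≠ 0 := by
          intro h
          apply hx1
          funext i
          exact (map_eq_zero (algebraMap K (AlgebraicClosure K))).1 (congrFun h i)
        set F1 : Fin (N + 3) → MvPolynomial (Fin (N + 3)) (AlgebraicClosure K) :=
          fun i => (F i).map (algebraMap K (AlgebraicClosure K)) with hF1
        have hFG1 : ∀ i : Fin (N + 2), F1 (Fin.castSucc i) = rename Fin.castSucc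
            ((fun i => (G i).map (algebraMap K (AlgebraicClosure K))) i) := by
          intro i
          show (F (Fin.castSucc i)).map _ = rename Fin.castSucc ((G i).map _)
          rw [hFG, map_rename]
        have hper2 : (evv fun i => (G i).map (algebraMap K (AlgebraicClosure K)))^[p]
            (fun i => algebraMap K (AlgebraicClosure K) (x1 i)) =
            algebraMap K (AlgebraicClosure K) c •
              fun i => algebraMap K (AlgebraicClosure K) (x1 i) := by
          rw [evv_map_iter, hper]
          funext i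
          simp only [Pi.smul_apply, smul_eq_mul, map_mul]
        have e2 := fib_spec (F := F1) hFG1 (fun i => (hG i).map _) hper2 u
        have e4 : evv (fib F1 (fun i => algebraMap K (AlgebraicClosure K) (x1 i))
            (algebraMap K (AlgebraicClosure K) c) d p) u = 0 := by
          funext i
          have h1 := hu i
          rw [aeval_def, ← eval_map, fib_map] at h1
          exact h1
        rw [e4] at e2
        have hne : ∀ y : Fin (N + 3) → AlgebraicClosure K, y ≠ 0 → evv F1 y ≠ 0 := by
          intro y hy h0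
          apply hy
          apply hmor y
          intro i
          have h1 := congrFun h0 i
          rw [aeval_def, ← eval_map]
          exact h1
        apply iter_ne hne p (io (fun i => algebraMap K (AlgebraicClosure K) (x1 i)) u)
        · intro h0
          apply hu0
          apply io_inj hx1'
          rw [h0]
          funext i
          refine Fin.lastCases ?_ (fun i => ?_) i
          · rw [io_last]
            rfl
          · rw [io_cs]
            simp
        · rw [e2]
          funext i
          refine Fin.lastCases ?_ (fun i => ?_) i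
          · rw [io_last]
            rfl
          · rw [io_cs]
            simp

end Pool.Agent.Q15.DYN
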